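import Pool.Agent.P.MP_af0fcb_gt.SW.Defs

namespace Pool.Agent.P.MP_af0fcb_gt.SW

open Set Filter Topology Metric

namespace GLx

theorem key {X : Type} [MetricSpace X] [CompleteSpace X] (f : ℕ → X) (c : ℝ) (J : ℕ)
    (h : ∀ j, J ≤ j → dist (f j) (f (j + 1)) ≤ c / 2 ^ j) :
    ∃ b, Tendsto f atTop (𝓝 b) ∧ ∀ j, J ≤ j → dist (f j) b ≤ 2 * c / 2 ^ j := by
  have h2 : ∀ n, dist (f (n + J)) (f (n + 1 + J)) ≤ (2 * c / 2 ^ J) / 2 / 2 ^ n := by
    intro n
    have h3 := h (n + J) (Nat.le_add_left _ _)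
    have e1 : n + 1 + J = n + J + 1 := by ring
    have e2 : (2 * c / 2 ^ J) / 2 / 2 ^ n = c / 2 ^ (n + J) := by
      rw [pow_add]; field_simp
    rw [e1, e2]; exact h3
  have hc : CauchySeq (fun n => f (n + J)) := cauchySeq_of_le_geometric_two h2
  obtain ⟨b, hb⟩ := cauchySeq_tendsto_of_complete hc
  refine ⟨b, (tendsto_add_atTop_iff_nat J).1 hb, fun j hj => ?_⟩
  obtain ⟨n, rfl⟩ := Nat.exists_eq_add_of_le' hj
  have h4 := dist_le_of_le_geometric_two_of_tendsto (f := fun n => f (n + J)) h2 hb n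
  have e3 : 2 * c / 2 ^ J / 2 ^ n = 2 * c / 2 ^ (n + J) := by
    rw [pow_add]; field_simp
  rw [e3] at h4
  exact h4

end GLx

theorem p_GL : S_GL := by
  intro Y E W _ _ D u F hd hc h0 hF hF0 hs
  classical
  refine continuous_of_locally_uniform_approx_of_continuousAt fun y U hU => ?_
  obtain ⟨ε, hε, hεU⟩ := Metric.mem_uniformity_dist.1 hU
  obtain ⟨N, hN, hT⟩ := hs (ε / 2) (half_pos hε) y
  rw [eventually_cofinite] at hT
  refine ⟨N, hN, fun z => ∑ w ∈ hT.toFinset, u w z,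
    (continuous_finsetSum _ fun w _ => hc w).continuousAt, fun z hz => hεU ?_⟩
  beta_reduce
  rw [dist_eq_norm]
  by_cases hz' : ∃ w, z ∈ D w
  · obtain ⟨w, hw⟩ := hz'
    have hoth : ∀ w', w' ≠ w → u w' z = 0 := fun w' hw' =>
      h0 w' z fun h => hw' (hd w' w z h hw)
    rw [hF w z hw]
    by_cases hwT : w ∈ hT.toFinset
    · rw [Finset.sum_eq_single_of_mem w hwT fun w' _ hw' => hoth w' hw']
      simpa using hε
    · rw [Finset.sum_eq_zero fun w' hw' => hoth w' fun h => hwT (h ▸ hw')]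
      have h5 : ∀ z ∈ N, ‖u w z‖ ≤ ε / 2 := by
        by_contra h
        exact hwT (hT.mem_toFinset.2 h)
      rw [sub_zero]
      exact lt_of_le_of_lt (h5 z hz) (half_lt_self hε)
  · have hn : ∀ w, z ∉ D w := fun w h => hz' ⟨w, h⟩
    rw [hF0 z hn, Finset.sum_eq_zero fun w _ => h0 w z (hn w)]
    simpa using hε

theorem p_LIM : S_LIM := by
  intro H X _ _ _ a c ha
  have h1 : ∀ s, ∃ J, ∀ j, J ≤ j → ∀ x, dist (a j s x) (a (j + 1) s x) ≤ c / 2 ^ j :=
    fun s => eventually_atTop.1 (ha s)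
  choose J hJ using h1
  have h2 : ∀ s x, ∃ b, Tendsto (fun j => a j s x) atTop (𝓝 b) ∧
      ∀ j, J s ≤ j → dist (a j s x) b ≤ 2 * c / 2 ^ j :=
    fun s x => GLx.key (fun j => a j s x) c (J s) fun j hj => hJ s j hj x
  choose b hb hd using h2
  have hu : ∀ s, TendstoUniformly (fun j x => a j s x) (b s) atTop := by
    intro s
    rw [Metric.tendstoUniformly_iff]
    intro ε hε
    have h3 : Tendsto (fun j : ℕ => 2 * c / (2 : ℝ) ^ j) atTop (𝓝 0) :=
      tendsto_const_nhds.div_atTop (tendsto_pow_atTop_atTop_of_one_lt one_lt_two)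
    filter_upwards [h3.eventually (gt_mem_nhds hε), eventually_ge_atTop (J s)] with j hj hj' x
    rw [dist_comm]
    exact lt_of_le_of_lt (hd s x j hj') hj
  have hc : ∀ s, Continuous (b s) := fun s =>
    (hu s).continuous (Eventually.of_forall fun j => (a j s).continuous).frequently
  have hone : ∀ x, b 1 x = x := by
    intro x
    have h4 := hb 1 x
    simp only [act_one] at h4
    exact tendsto_nhds_unique h4 tendsto_const_nhds
  have hm : ∀ g h x, b (g * h) x = b g (b h x) := by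
    intro g h x
    have h4 := hb (g * h) x
    simp only [act_mul] at h4
    exact tendsto_nhds_unique h4 ((hu g).tendsto_comp (hc g).continuousAt (hb h x))
  exact ⟨mkAct b hc hone hm, fun s x => hb s x⟩

end Pool.Agent.P.MP_af0fcb_gt.SW
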