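import Pool.Agent.P.MP_af0fcb_gt.SW.Defs

/-! Generic functions have dense local maxima with distinct values. -/

namespace Pool.Agent.P.MP_af0fcb_gt.SW

open Set Filter Topology Metric

namespace RIGx

variable {Y : Type} [MetricSpace Y]

/-- Perturbations for which a point of `K` beats all points of `K'` by a margin. -/
def O (g : Y → ℝ) (K K' : Set Y) : Set (BoundedContinuousFunction Y ℝ) :=
  {l | ∃ η > 0, ∃ y ∈ K, ∀ z ∈ K', g z + l z + η ≤ g y + l y}

theorem isOpen_O (g : Y → ℝ) (K K' : Set Y) : IsOpen (O g K K') := by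
  rw [Metric.isOpen_iff]
  rintro l ⟨η, hη, y, hy, h⟩
  refine ⟨η / 3, by positivity, fun l' hl' => ⟨η / 3, by positivity, y, hy, fun z hz => ?_⟩⟩
  have h1 := fun x => abs_le.mp ((l'.dist_coe_le_dist (g := l) x).trans (mem_ball.mp hl').le)
  linarith [h z hz, (h1 z).2, (h1 y).1]

theorem pert {g : Y → ℝ} {K K' : Set Y} (hK : IsClosed K') {y : Y} (hy : y ∈ K) (hy' : y ∉ K')
    {t : ℝ} (ht : 0 < t) (l : BoundedContinuousFunction Y ℝ)
    (h : ∀ z ∈ K', g z + l z ≤ g y + l y + t / 4) : ∃ l' ∈ O g K K', dist l l' < t := by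
  obtain ⟨b, h0, h1, hb⟩ := exists_bounded_zero_one_of_closed hK (isClosed_singleton (x := y))
    (disjoint_singleton_right.mpr hy')
  refine ⟨l + (t / 2) • b, ⟨t / 4, by positivity, y, hy, fun z hz => ?_⟩, ?_⟩
  · have h2 : b z = 0 := h0 hz
    have h3 : b y = 1 := h1 rfl
    simp only [BoundedContinuousFunction.coe_add, BoundedContinuousFunction.coe_smul, Pi.add_apply,
      smul_eq_mul, h2, h3]
    linarith [h z hz]
  · have h2 : ‖b‖ ≤ 1 := (BoundedContinuousFunction.norm_le zero_le_one).mpr fun x => by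
      rw [Real.norm_of_nonneg (hb x).1]; exact (hb x).2
    rw [dist_self_add_right, norm_smul, Real.norm_of_nonneg (half_pos ht).le]
    nlinarith

variable [ProperSpace Y]

theorem core {S : Set Y} (hS : IsOpen S) {g : Y → ℝ} (hg : ContinuousOn g S) :
    ∃ l : BoundedContinuousFunction Y ℝ,
      (∀ V, IsOpen V → (∃ y ∈ V, y ∈ S) → ∃ y ∈ V, y ∈ S ∧ IsLocalMax (fun z => g z + l z) y) ∧
      ∀ y ∈ S, ∀ y' ∈ S, IsLocalMax (fun z => g z + l z) y → IsLocalMax (fun z => g z + l z) y' →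
        g y + l y = g y' + l y' → y = y' := by
  have hc : ∀ l : BoundedContinuousFunction Y ℝ, ContinuousOn (fun z => g z + l z) S := fun l =>
    hg.add l.continuous.continuousOn
  have hB := TopologicalSpace.isBasis_countableBasis Y
  have hB' := TopologicalSpace.countable_countableBasis Y
  have h1 : ∀ᶠ l in residual (BoundedContinuousFunction Y ℝ),
      ∀ V ∈ {V ∈ TopologicalSpace.countableBasis Y | (V ∩ S).Nonempty},
        l ∈ ⋃ (c : Y) (ρ : ℝ) (_ : closedBall c ρ ⊆ V ∩ S), O g (closedBall c ρ) (sphere c ρ) := by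
    refine (eventually_countable_ball (hB'.mono (sep_subset _ _))).mpr ?_
    rintro V ⟨hV, c, hcV⟩
    refine residual_of_dense_open (isOpen_iUnion fun _ => isOpen_iUnion fun _ =>
      isOpen_iUnion fun _ => isOpen_O _ _ _) fun l => Metric.mem_closure_iff.mpr fun t ht => ?_
    have h2 : ∀ᶠ z in 𝓝 c, z ∈ V ∩ S ∧ g z + l z < g c + l c + t / 4 :=
      (((hB.isOpen hV).inter hS).eventually_mem hcV).and
        (((hc l).continuousAt (hS.mem_nhds hcV.2)).eventually_lt_const (by linarith))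
    obtain ⟨ρ, hρ, h3⟩ := nhds_basis_closedBall.eventually_iff.mp h2
    obtain ⟨l', h4, h5⟩ := pert (g := g) (isClosed_sphere (x := c) (ε := ρ)) (mem_closedBall_self hρ.le)
      (by simpa using hρ.ne) ht l fun z hz => (h3 (sphere_subset_closedBall hz)).2.le
    exact ⟨l', mem_iUnion₂.mpr ⟨c, ρ, mem_iUnion.mpr ⟨fun z hz => (h3 hz).1, h4⟩⟩, h5⟩
  have h2 : ∀ᶠ l in residual (BoundedContinuousFunction Y ℝ),
      ∀ p ∈ {p ∈ TopologicalSpace.countableBasis Y ×ˢ TopologicalSpace.countableBasis Y |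
        IsCompact (closure p.1 ∪ closure p.2) ∧ closure p.1 ∪ closure p.2 ⊆ S ∧ p.1.Nonempty ∧
          Disjoint (closure p.1) (closure p.2)},
        l ∈ O g (closure p.1) (closure p.2) ∪ O g (closure p.2) (closure p.1) := by
    refine (eventually_countable_ball ((hB'.prod hB').mono (sep_subset _ _))).mpr ?_
    rintro p ⟨-, k1, k2, k3, k4⟩
    refine residual_of_dense_open ((isOpen_O _ _ _).union (isOpen_O _ _ _))
      fun l => Metric.mem_closure_iff.mpr fun t ht => ?_
    obtain ⟨y, hy, h3⟩ := k1.exists_isMaxOn k3.closure.inl ((hc l).mono k2)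
    have h4 : ∀ z ∈ closure p.1 ∪ closure p.2, g z + l z ≤ g y + l y + t / 4 := fun z hz => by
      have h5 : g z + l z ≤ g y + l y := h3 hz
      linarith
    rcases hy with hy | hy
    · obtain ⟨l', h5, h6⟩ := pert isClosed_closure hy (disjoint_left.mp k4 hy) ht l
        fun z hz => h4 z (Or.inr hz)
      exact ⟨l', Or.inl h5, h6⟩
    · obtain ⟨l', h5, h6⟩ := pert isClosed_closure hy (disjoint_right.mp k4 hy) ht l
        fun z hz => h4 z (Or.inl hz)
      exact ⟨l', Or.inr h5, h6⟩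
  obtain ⟨l, e1, e2⟩ := (dense_of_mem_residual (h1.and h2)).nonempty
  refine ⟨l, ?_, fun y hy y' hy' m m' e => ?_⟩
  · rintro V hV ⟨y, hy, hyS⟩
    obtain ⟨U, hU, hyU, hUV⟩ := hB.exists_subset_of_mem_open hy hV
    obtain ⟨c, ρ, h3⟩ := mem_iUnion₂.mp (e1 U ⟨hU, y, hyU, hyS⟩)
    obtain ⟨h4, η, hη, x, hx, h5⟩ := mem_iUnion.mp h3
    obtain ⟨m, hm, h6⟩ := (isCompact_closedBall c ρ).exists_isMaxOn ⟨x, hx⟩
      ((hc l).mono fun z hz => (h4 hz).2)
    refine ⟨m, hUV (h4 hm).1, (h4 hm).2, h6.isLocalMax (closedBall_mem_nhds_of_mem ?_)⟩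
    refine mem_ball.mpr (lt_of_le_of_ne (mem_closedBall.mp hm) fun h7 => ?_)
    have h8 : g x + l x ≤ g m + l m := h6 hx
    linarith [h5 m h7]
  · by_contra hne
    have key : ∀ y ∈ S, IsLocalMax (fun z => g z + l z) y → ∀ r > 0,
        ∃ U ∈ TopologicalSpace.countableBasis Y, y ∈ U ∧ IsCompact (closure U) ∧
          ∀ z ∈ closure U, (z ∈ S ∧ z ∈ ball y r) ∧ g z + l z ≤ g y + l y := by
      intro y hy m r hr
      obtain ⟨ρ, hρ, h3⟩ := nhds_basis_closedBall.eventually_iff.mp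
        (((hS.eventually_mem hy).and (isOpen_ball.eventually_mem (mem_ball_self hr))).and m)
      obtain ⟨U, hU, h4, h5⟩ := hB.mem_nhds_iff.mp (closedBall_mem_nhds y hρ)
      have h6 := closure_minimal h5 isClosed_closedBall
      exact ⟨U, hU, h4, (isCompact_closedBall y ρ).of_isClosed_subset isClosed_closure h6,
        fun z hz => h3 (h6 hz)⟩
    have hr := half_pos (dist_pos.mpr hne)
    obtain ⟨U, hU, a1, a2, a3⟩ := key y hy m _ hr
    obtain ⟨U', hU', b1, b2, b3⟩ := key y' hy' m' _ hr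
    rcases e2 (U, U') ⟨⟨hU, hU'⟩, a2.union b2,
      union_subset (fun z hz => (a3 z hz).1.1) fun z hz => (b3 z hz).1.1, ⟨y, a1⟩,
      (ball_disjoint_ball (add_halves _).le).mono (fun z hz => (a3 z hz).1.2)
        fun z hz => (b3 z hz).1.2⟩ with ⟨η, hη, x, hx, h⟩ | ⟨η, hη, x, hx, h⟩
    · linarith [h y' (subset_closure b1), (a3 x hx).2]
    · linarith [h y (subset_closure a1), (b3 x hx).2]

end RIGx

theorem p_RIG : S_RIG := by
  intro Y _ _ G hG h0
  have hS : IsOpen {y | 0 < G y} := isOpen_lt continuous_const hG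
  obtain ⟨l, h1, h2⟩ := RIGx.core hS (g := fun y => Real.log (G y))
    (hG.continuousOn.log fun y hy => ne_of_gt hy)
  have e : ∀ y, 0 < G y →
      G y * Real.exp (l y - ‖l‖) = Real.exp (Real.log (G y) + l y - ‖l‖) := fun y hy => by
    rw [add_sub_assoc, Real.exp_add, Real.exp_log hy]
  have m : ∀ y, 0 < G y → (IsLocalMax (fun y => G y * Real.exp (l y - ‖l‖)) y ↔
      IsLocalMax (fun z => Real.log (G z) + l z) y) := fun y hy =>
    eventually_congr ((hS.eventually_mem hy).mono fun z hz => by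
      simp only [e z hz, e y hy, Real.exp_le_exp, sub_le_sub_iff_right])
  refine ⟨fun y => G y * Real.exp (l y - ‖l‖), by fun_prop,
    fun y => mul_nonneg (h0 y) (Real.exp_pos _).le, fun y => mul_le_of_le_one_right (h0 y) ?_,
    fun y hy => mul_pos hy (Real.exp_pos _), fun V hV hy => ?_, fun y y' hy hy' a a' b => ?_⟩
  · exact Real.exp_le_one_iff.mpr (sub_nonpos.mpr ((le_abs_self _).trans (l.norm_coe_le_norm y)))
  · obtain ⟨y, a1, a2, a3⟩ := h1 V hV hy
    exact ⟨y, a1, a2, (m y a2).mpr a3⟩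
  · simp only [e y hy, e y' hy', Real.exp_eq_exp, sub_left_inj] at b
    exact h2 y hy y' hy' ((m y hy).mp a) ((m y' hy').mp a') b

end Pool.Agent.P.MP_af0fcb_gt.SW
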