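import Pool.Agent.P.MP_af0fcb_gt.SW.Defs

namespace Pool.Agent.P.MP_af0fcb_gt.SW

open Set Filter Topology Metric

theorem inClass_congr {E Y H : Type} [TopologicalSpace E] [TopologicalSpace Y] [Group H]
    (e : E ≃ₜ Y) (h : InClass Y H) : InClass E H := by
  obtain ⟨hc, f, hf, ⟨φ⟩⟩ := h
  refine ⟨hc, f ∘ e, hf.comp e.continuous, ⟨φ.trans ?_⟩⟩
  exact
    { toFun := fun A => ⟨(e.trans A.1).trans e.symm, fun p => by
        simpa using A.2 (e p)⟩
      invFun := fun A => ⟨(e.symm.trans A.1).trans e, fun p => by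
        simpa using A.2 (e.symm p)⟩
      left_inv := fun A => by ext p; simp
      right_inv := fun A => by ext p; simp
      map_mul' := fun A B => by ext p; simp }

theorem glue (hCH : S_CH) (hBL : S_BL) (hTF : S_TF) (hRE : S_REAL) (H : Type) [Group H]
    [Countable H] (X : Type) [NormedAddCommGroup X] [NormedSpace ℝ X] [FiniteDimensional ℝ X]
    (n : ℕ) (hmn : 2 * Module.finrank ℝ X + 1 ≤ n) (α : Act H X)
    (hα : Function.Injective α) : InClass (EuclideanSpace ℝ (Fin n)) H := by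
  have := FiniteDimensional.proper_real X
  obtain ⟨α', h'⟩ := hTF H _ α hα
  obtain ⟨W, _, _, κ, hκ, hfree⟩ := hCH H _ α'
  obtain ⟨β, Θ, hB, -⟩ := hBL H _ W α' κ hκ ∅ 1 one_pos
  have := hRE H _ W (EuclideanSpace ℝ (Fin (n - (2 * Module.finrank ℝ X + 1)))) β Θ hB (hfree h')
  refine inClass_congr (ContinuousLinearEquiv.ofFinrankEq (𝕜 := ℝ) ?_).toHomeomorph this
  simp only [Module.finrank_prod, finrank_euclideanSpace_fin, Module.finrank_self]
  omega

/-- The extension of an order automorphism of the rationals to the reals. -/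
noncomputable def extR (φ : ℚ ≃o ℚ) (x : ℝ) : ℝ := sSup ((fun q => (φ q : ℝ)) '' {q | (q : ℝ) ≤ x})

theorem extR_bdd (φ : ℚ ≃o ℚ) (x : ℝ) : BddAbove ((fun q => (φ q : ℝ)) '' {q | (q : ℝ) ≤ x}) := by
  obtain ⟨p, hp⟩ := exists_rat_gt x
  refine ⟨φ p, ?_⟩
  rintro _ ⟨q, hq, rfl⟩
  exact Rat.cast_le.2 (φ.monotone (Rat.cast_le.1 (le_trans hq hp.le)))

theorem extR_ne (φ : ℚ ≃o ℚ) (x : ℝ) : ((fun q => (φ q : ℝ)) '' {q | (q : ℝ) ≤ x}).Nonempty := by
  obtain ⟨p, hp⟩ := exists_rat_lt x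
  exact ⟨_, p, hp.le, rfl⟩

theorem extR_mono (φ : ℚ ≃o ℚ) : Monotone (extR φ) := fun x y h =>
  csSup_le_csSup (extR_bdd φ y) (extR_ne φ x) (image_mono fun _ hq => le_trans hq h)

theorem extR_rat (φ : ℚ ≃o ℚ) (q : ℚ) : extR φ q = φ q := by
  refine le_antisymm (csSup_le (extR_ne φ _) ?_) (le_csSup (extR_bdd φ _) ⟨q, le_refl (q : ℝ), rfl⟩)
  rintro _ ⟨p, hp, rfl⟩
  exact Rat.cast_le.2 (φ.monotone (Rat.cast_le.1 (show (p : ℝ) ≤ q from hp)))

theorem mono_le (φ : ℚ ≃o ℚ) {F G : ℝ → ℝ} (hF : Monotone F) (hG : Monotone G)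
    (h1 : ∀ q : ℚ, F q = φ q) (h2 : ∀ q : ℚ, G q = φ q) (x : ℝ) : F x ≤ G x := by
  by_contra h
  obtain ⟨r, hr1, hr2⟩ := exists_rat_btwn (not_le.1 h)
  rcases le_total x (φ.symm r : ℚ) with hx | hx
  · have := hF hx
    rw [h1, φ.apply_symm_apply] at this
    linarith
  · have := hG hx
    rw [h2, φ.apply_symm_apply] at this
    linarith

theorem act_of_order (H : Type) [Group H] [Countable H] [LinearOrder H]
    (hl : ∀ a b c : H, a < b → c * a < c * b) : ∃ α : Act H ℝ, Function.Injective α := by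
  have : Countable (H ×ₗ ℚ) := inferInstanceAs (Countable (H × ℚ))
  obtain ⟨e⟩ := Order.iso_of_countable_dense (H ×ₗ ℚ) ℚ
  have hm : ∀ h : H, StrictMono fun p : H ×ₗ ℚ => toLex (h * (ofLex p).1, (ofLex p).2) := by
    intro h p q hpq
    rcases Prod.Lex.lt_iff.1 hpq with h1 | ⟨h1, h2⟩
    · exact Prod.Lex.lt_iff.2 (Or.inl (hl _ _ _ h1))
    · exact Prod.Lex.lt_iff.2 (Or.inr ⟨congrArg (h * ·) h1, h2⟩)
  let ψ : H → (H ×ₗ ℚ) ≃o (H ×ₗ ℚ) := fun h => (hm h).orderIsoOfSurjective _ fun p =>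
    ⟨toLex (h⁻¹ * (ofLex p).1, (ofLex p).2), by simp⟩
  have hψ : ∀ h p, ψ h p = toLex (h * (ofLex p).1, (ofLex p).2) := fun _ _ => rfl
  let φ : H → ℚ ≃o ℚ := fun h => (e.symm.trans (ψ h)).trans e
  have hφ : ∀ h q, φ h q = e (ψ h (e.symm q)) := fun _ _ => rfl
  have h1 : ∀ x, extR (φ 1) x = x := fun x =>
    have a : ∀ q : ℚ, id (q : ℝ) = φ 1 q := fun q => by simp [hφ, hψ]
    le_antisymm (mono_le _ (extR_mono _) monotone_id (extR_rat _) a x)
      (mono_le _ monotone_id (extR_mono _) a (extR_rat _) x)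
  have h2 : ∀ g h x, extR (φ (g * h)) x = extR (φ g) (extR (φ h) x) := fun g h x =>
    have a : ∀ q : ℚ, (extR (φ g) ∘ extR (φ h)) q = φ (g * h) q := fun q => by
      simp [extR_rat, hφ, hψ, mul_assoc]
    have b := (extR_mono (φ g)).comp (extR_mono (φ h))
    le_antisymm (mono_le _ (extR_mono _) b (extR_rat _) a x)
      (mono_le _ b (extR_mono _) a (extR_rat _) x)
  refine ⟨mkAct (fun h => extR (φ h)) (fun h => (extR_mono _).continuous_of_surjective fun x =>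
    ⟨extR (φ h⁻¹) x, by rw [← h2, mul_inv_cancel, h1]⟩) h1 h2,
    (injective_iff_map_eq_one _).2 fun h hh => ?_⟩
  have := congrArg (fun A : ℝ ≃ₜ ℝ => A (e (toLex (1, 0)) : ℚ)) hh
  simp only [mkAct_apply, extR_rat, hφ, hψ] at this
  simpa using this

theorem converse {E H : Type} [TopologicalSpace E] [Group H] (h : InClass E H) :
    Countable H ∧ ∃ φ : H →* (E ≃ₜ E), Function.Injective φ := by
  obtain ⟨hc, f, -, ⟨φ⟩⟩ := h
  exact ⟨hc, (symmGroup f).subtype.comp φ.toMonoidHom, Subtype.val_injective.comp φ.injective⟩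

end Pool.Agent.P.MP_af0fcb_gt.SW
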