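import Pool.Agent.P.MP_af0fcb_gt.SW.Defs

namespace Pool.Agent.P.MP_af0fcb_gt.SW

open Set Filter Topology Metric

namespace ABSx

theorem glue (hGL : S_GL) {Y W : Type} [TopologicalSpace Y] (D : W → Set Y) (u G : W → Y → ℝ)
    (h1 : ∀ w w' y, y ∈ D w → y ∈ D w' → w = w') (h2 : ∀ w, Continuous (u w))
    (h3 : ∀ w y, y ∉ D w → u w y = 0) (h4 : ∀ w y, 0 ≤ u w y ∧ u w y ≤ G w y)
    (h5 : ∀ δ : ℝ, 0 < δ → ∀ y, ∃ N ∈ 𝓝 y, ∀ᶠ w in cofinite, ∀ z ∈ N, G w z ≤ δ) :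
    ∃ F : Y → ℝ, Continuous F ∧ (∀ w y, y ∈ D w → F y = u w y) ∧
      ∀ y, (∀ w, y ∉ D w) → F y = 0 := by
  classical
  have a : ∀ w y, y ∈ D w → (if h : ∃ w, y ∈ D w then u h.choose y else 0) = u w y :=
    fun w y hy => by
      have h : ∃ w, y ∈ D w := ⟨w, hy⟩
      rw [dif_pos h, h1 _ _ y h.choose_spec hy]
  have b : ∀ y, (∀ w, y ∉ D w) → (if h : ∃ w, y ∈ D w then u h.choose y else 0) = 0 :=
    fun y hy => dif_neg (not_exists.2 hy)
  refine ⟨_, hGL Y ℝ W D u _ h1 h2 h3 a b fun δ hδ y => ?_, a, b⟩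
  obtain ⟨N, hN, h⟩ := h5 δ hδ y
  exact ⟨N, hN, h.mono fun w hw z hz => by
    rw [Real.norm_of_nonneg (h4 w z).1]; exact (h4 w z).2.trans (hw z hz)⟩

theorem sect {H W : Type} [Group H] [MulAction H W] (fr : ∀ (h : H) (w : W), h • w = w → h = 1) :
    ∃ k : W → H, ∀ h w, k (h • w) * h = k w := by
  have a : ∀ w : W, ∃ g : H, g • w = (Quotient.mk (MulAction.orbitRel H W) w).out := fun w =>
    MulAction.orbitRel_apply.1 (Quotient.exact (Quotient.out_eq (Quotient.mk _ w)))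
  choose k hk using a
  refine ⟨k, fun h w => ?_⟩
  have e : Quotient.mk (MulAction.orbitRel H W) (h • w) = Quotient.mk _ w :=
    Quotient.sound (MulAction.orbitRel_apply.2 ⟨h, rfl⟩)
  refine (inv_mul_eq_one.1 (fr _ w ?_)).symm
  rw [mul_smul, mul_smul, hk, e, ← hk, inv_smul_smul]

theorem lmax {Y : Type} [TopologicalSpace Y] {f : Y → ℝ} {y : Y} (h : IsLocalMax f y) (B : Y ≃ₜ Y)
    (e : ∀ z, f (B z) = f z) : IsLocalMax f (B y) := by
  have a : IsLocalMax f (B.symm (B y)) := by rwa [B.symm_apply_apply]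
  have b := a.comp_continuous B.symm.continuous.continuousAt
  rwa [show f ∘ B.symm = f from funext fun z => by rw [← e, Function.comp, ← e (B.symm z),
    B.apply_symm_apply, e]] at b

end ABSx

open ABSx in
theorem p_ABS (hGL : S_GL) (hRIG : S_RIG) : S_ABS := by
  classical
  intro H Y W _ _ _ _ γ G fr gc g0 gd gp ge gn
  obtain ⟨k, hk⟩ := sect fr
  have k1 : ∀ w, k (k w • w) = 1 := fun w => mul_eq_right.1 (hk _ w)
  have gz : ∀ w y, ¬0 < G w y → G w y = 0 := fun w y h => (not_lt.1 h).antisymm (g0 w y)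
  obtain ⟨G0, c0, a0, b0⟩ := glue hGL (fun w => {y | 0 < G w y ∧ k w = 1})
    (fun w y => if k w = 1 then G w y else 0) G (fun w w' y a b => gd w w' y a.1 b.1)
    (fun w => by split_ifs; exacts [gc w, continuous_const])
    (fun w y h => by
      split_ifs with e
      exacts [gz w y fun a => h ⟨a, e⟩, rfl])
    (fun w y => by split_ifs <;> simp [g0]) gn
  replace a0 : ∀ w y, 0 < G w y → k w = 1 → G0 y = G w y := fun w y a b =>
    (a0 w y ⟨a, b⟩).trans (if_pos b)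
  have p0 : ∀ y, 0 < G0 y → ∃ w, 0 < G w y ∧ k w = 1 := fun y h => by
    by_contra a
    exact h.ne' (b0 y (not_exists.1 a))
  have t0 : ∀ w y, 0 < G w y → G0 (γ (k w) y) = G w y := fun w y h =>
    (a0 _ _ (by rwa [ge]) (k1 w)).trans (ge _ _ _)
  obtain ⟨F, c1, f0, f1, f2, f3, f4⟩ := hRIG Y G0 c0 fun y => by
    by_cases a : ∃ w, 0 < G w y ∧ k w = 1
    · obtain ⟨w, a, b⟩ := a
      rw [a0 w y a b]; exact a.le
    · exact (b0 y (not_exists.1 a)).ge
  obtain ⟨f, c2, a2, b2⟩ := glue hGL (fun w => {y | 0 < G w y})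
    (fun w y => min (F (γ (k w) y)) (G w y)) G gd
    (fun w => (c1.comp (γ (k w)).continuous).min (gc w))
    (fun w y h => by rw [gz w y h]; exact min_eq_right (f0 _))
    (fun w y => ⟨le_min (f0 _) (g0 _ _), min_le_right _ _⟩) gn
  replace a2 : ∀ w y, 0 < G w y → f y = F (γ (k w) y) := fun w y h =>
    (a2 w y h).trans (min_eq_left ((f1 _).trans_eq (t0 w y h)))
  have inv : ∀ h y, f (γ h y) = f y := fun h y => by
    by_cases a : ∃ w, 0 < G w y
    · obtain ⟨w, a⟩ := a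
      rw [a2 w y a, a2 (h • w) _ (by rwa [ge]), ← act_mul, hk]
    · rw [b2 y (not_exists.1 a), b2 _ fun w b => a ⟨h⁻¹ • w, ?_⟩]
      rwa [← ge h, smul_inv_smul]
  have l1 : ∀ y, 0 < G0 y → f =ᶠ[𝓝 y] F := fun y h =>
    ((isOpen_lt continuous_const c0).eventually_mem h).mono fun z hz => by
      obtain ⟨w, a, b⟩ := p0 z hz
      rw [a2 w z a, b, act_one]
  have l3 : ∀ w y w' y', 0 < G w y → 0 < G w' y' → IsLocalMax f y → IsLocalMax f y' → f y = f y' →
      γ (k w) y = γ (k w') y' := fun w y w' y' a a' b b' e => by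
    have q := (t0 w y a).symm ▸ a
    have q' := (t0 w' y' a').symm ▸ a'
    exact f4 _ _ q q' ((lmax b _ (inv _)).congr (l1 _ q)) ((lmax b' _ (inv _)).congr (l1 _ q'))
      (by rw [← a2 w y a, ← a2 w' y' a', e])
  refine ⟨f, c2, inv, fun A hA w => ?_⟩
  by_cases ne : ∃ y, 0 < G w y
  swap
  · exact ⟨1, fun y a => absurd ⟨y, a⟩ ne⟩
  obtain ⟨y1, h1⟩ := ne
  have ex : ∀ y, 0 < G w y → ∃ w', 0 < G w' (A y) := fun y h => by
    by_contra a
    have b := f2 _ ((t0 w y h).symm ▸ h)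
    rw [← a2 w y h, ← hA, b2 _ (not_exists.1 a)] at b
    exact lt_irrefl _ b
  obtain ⟨w', h2⟩ := ex y1 h1
  have op : ∀ v, IsOpen {y | 0 < G v (A y)} := fun v =>
    isOpen_lt continuous_const ((gc v).comp A.continuous)
  have sub : {y | 0 < G w y} ⊆ {y | 0 < G w' (A y)} :=
    IsPreconnected.subset_left_of_subset_union (v := ⋃ v ≠ w', {y | 0 < G v (A y)}) (op w')
      (isOpen_biUnion fun v _ => op v)
      (disjoint_left.2 fun y a b => by
        obtain ⟨v, c, e⟩ := mem_iUnion₂.1 b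
        exact c (gd _ _ _ e a))
      (fun y a => by
        obtain ⟨v, b⟩ := ex y a
        by_cases c : v = w'
        · exact Or.inl (c ▸ b)
        · exact Or.inr (mem_iUnion₂.2 ⟨v, c, b⟩))
      ⟨y1, h1, h2⟩ (gp w)
  refine ⟨(k w')⁻¹ * k w, fun y hy => ?_⟩
  by_contra a
  obtain ⟨z, ⟨z1, z2⟩, z3, z4⟩ := f3
    (γ (k w)⁻¹ ⁻¹' ({z | A z ≠ γ ((k w')⁻¹ * k w) z} ∩ {z | 0 < G w z}))
    (((isOpen_ne_fun A.continuous (γ _).continuous).inter
      (isOpen_lt continuous_const (gc w))).preimage (γ _).continuous)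
    ⟨γ (k w) y, by rw [mem_preimage, act_inv_left]; exact ⟨a, hy⟩, (t0 w y hy).symm ▸ hy⟩
  have m := lmax (z4.congr (l1 z z3).symm) _ (inv (k w)⁻¹)
  refine z1 ?_
  rw [act_mul, l3 w _ w' _ z2 (sub z2) m (lmax m A hA) (hA _).symm, act_inv_left]

end Pool.Agent.P.MP_af0fcb_gt.SW
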