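import Pool.Agent.P.MP_af0fcb_gt.SW.Defs

namespace Pool.Agent.P.MP_af0fcb_gt.SW

open Set Filter Topology Metric

theorem p_BL (hL : S_LIM) (hRK : S_RK) (h1 : S_TOW) (h2 : S_TA) (h3 : S_TB) : S_BL := by
  intro H X W _ _ _ _ _ _ _ α κ hκ S0 ε hε
  obtain ⟨S, r, hR⟩ := hRK H W S0
  obtain ⟨F, ρ, E, hT⟩ := h1 H X W α κ S0 S r (ε / 2) hκ hR (half_pos hε)
  let a : ℕ → Act H X := fun j => (MulAut.conj (F j)).toMonoidHom.comp α
  have ha : ∀ j s x, a j s x = F j (α s ((F j).symm x)) := fun _ _ _ => rfl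
  have hd : ∀ j, ∀ s ∈ S (j - 1), ∀ x, dist (a j s x) (a (j + 1) s x) ≤ ε / 2 / 2 ^ j := by
    intro j s hs x
    have := h2 H X W α κ S0 S r (ε / 2) F ρ E hR (half_pos hε) hT j s hs ((F (j + 1)).symm x)
    rwa [Homeomorph.apply_symm_apply] at this
  obtain ⟨β, hβ⟩ := hL H X a (ε / 2) fun s => by
    obtain ⟨j, hj⟩ := hR.exh s
    filter_upwards [eventually_ge_atTop (j + 1)] with k hk
    exact hd k s (hR.mono (by omega : j ≤ k - 1) hj)
  obtain ⟨Θ, t1, t2, t3⟩ := h3 H X W α κ S0 S r (ε / 2) F ρ E hκ hR (half_pos hε) hT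
  refine ⟨β, Θ, ⟨fun s w v hv => ?_, fun w w' v v' hv hv' e => ?_, fun δ hδ => ?_, t3⟩,
    fun w v v' hv hv' => (t2 w v v' hv hv').trans ?_, fun s hs x => ?_⟩
  · obtain ⟨j, hj⟩ := hR.exh s
    refine tendsto_nhds_unique (hβ s _) (tendsto_const_nhds.congr' ?_)
    filter_upwards [eventually_ge_atTop j, eventually_gt_atTop (r w),
      eventually_gt_atTop (r (s • w))] with k hk k1 k2
    rw [ha, ← (t1 k w v k1 hv).2, Homeomorph.symm_apply_apply,
      hT.eqv k s w _ (hR.mono hk hj) (by omega) (t1 k w v k1 hv).1, (t1 k _ v k2 hv).2]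
  · have k1 : r w < r w + r w' + 1 := by omega
    have k2 : r w' < r w + r w' + 1 := by omega
    rw [← (t1 _ w v k1 hv).2, ← (t1 _ w' v' k2 hv').2] at e
    exact hT.disj _ w w' _ _ (by omega) (by omega) (t1 _ w v k1 hv).1 (t1 _ w' v' k2 hv').1
      ((F _).injective e)
  · obtain ⟨J, hJ⟩ := pow_unbounded_of_one_lt (ε / 2 / δ) (one_lt_two (α := ℝ))
    filter_upwards [(hR.fin J).compl_mem_cofinite] with w hw v v' hv hv'
    refine (t2 w v v' hv hv').trans ?_
    have h4 : (2 : ℝ) ^ J ≤ 2 ^ (r w + 1) :=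
      pow_le_pow_right₀ one_le_two (by simp only [mem_compl_iff, mem_ofPred_eq] at hw; omega)
    rw [div_lt_iff₀ hδ] at hJ
    rw [div_le_iff₀ (by positivity)]
    nlinarith
  · exact (div_le_self (half_pos hε).le (one_le_pow₀ one_le_two)).trans (half_le_self hε.le)
  · have := dist_le_of_le_geometric_two_of_tendsto₀ (f := fun j => a j s x)
      (fun j => hd j s (hR.mono (Nat.zero_le _) (hR.sub hs)) x) (hβ s x)
    rw [ha, hT.zero] at this
    rw [dist_comm]
    exact this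

end Pool.Agent.P.MP_af0fcb_gt.SW
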