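import Pool.Agent.P.MP_af0fcb_gt.SW.Defs

namespace Pool.Agent.P.MP_af0fcb_gt.SW

open Set Filter Topology Metric

namespace CHx

variable {H X : Type} [Group H] [NormedAddCommGroup X]

/-- Points at which every element of the stabiliser is the identity nearby. -/
def R (α : Act H X) : Set X := {z | ∀ h, α h z = z → ∀ᶠ v in 𝓝 z, α h v = v}

theorem R_dense [Countable H] [ProperSpace X] (α : Act H X) : Dense (R α) := by
  have hc : ∀ h, IsClosed {x | α h x = x} := fun h =>
    isClosed_eq (α h).continuous continuous_id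
  refine Dense.mono (fun z hz h hh => ?_)
    (dense_iInter_of_isOpen (f := fun h => (frontier {x | α h x = x})ᶜ)
      (fun _ => isClosed_frontier.isOpen_compl)
      fun h => interior_eq_empty_iff_dense_compl.1 (interior_frontier (hc h)))
  have a := mem_iInter.1 hz h
  rw [(hc h).frontier_eq, mem_compl_iff, Set.mem_sdiff, not_and, not_not] at a
  exact mem_interior_iff_mem_nhds.1 (a hh)

theorem R_inv (α : Act H X) (g : H) {z : X} (hz : z ∈ R α) : α g z ∈ R α := fun h hh => by
  have a := hz (g⁻¹ * h * g) (by rw [act_mul, act_mul, hh, act_inv_left])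
  have t : Tendsto (α g⁻¹) (𝓝 (α g z)) (𝓝 z) := by
    have := (α g⁻¹).continuous.tendsto (α g z)
    rwa [act_inv_left] at this
  filter_upwards [t.eventually a] with v hv
  rw [act_mul, act_mul, act_inv_right] at hv
  exact (α g⁻¹).injective hv

/-- The action on an invariant set. -/
@[reducible] def act (α : Act H X) (Z : Set X) (hZ : ∀ h, ∀ z ∈ Z, α h z ∈ Z) : MulAction H Z where
  smul h w := ⟨α h w.1, hZ h _ w.2⟩
  one_smul w := Subtype.ext (act_one α w.1)
  mul_smul g h w := Subtype.ext (act_mul α g h w.1)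

end CHx

open CHx in
theorem p_CH : S_CH := by
  intro H X _ _ _ _ α
  obtain ⟨C, hC, Cc, Cd⟩ := (R_dense α).exists_countable_dense_subset
  let Z : Set X := ⋃ h, α h '' C
  have hZ : ∀ h, ∀ z ∈ Z, α h z ∈ Z := fun h z hz => by
    obtain ⟨g, c, hc, rfl⟩ := mem_iUnion.1 hz
    exact mem_iUnion.2 ⟨h * g, c, hc, act_mul α h g c⟩
  have ZR : Z ⊆ R α := fun z hz => by
    obtain ⟨g, c, hc, rfl⟩ := mem_iUnion.1 hz
    exact R_inv α g (hC hc)
  have Zc : Z.Countable := countable_iUnion fun h => Cc.image _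
  have Zd : Dense Z := Cd.mono fun c hc => mem_iUnion.2 ⟨1, c, hc, act_one α c⟩
  let _ := act α Z hZ
  have hs : ∀ (h : H) (w : Z), (h • w).1 = α h w.1 := fun _ _ => rfl
  let ρ : Z → Z := fun w => (Quotient.mk (MulAction.orbitRel H Z) w).out
  have hρ : ∀ w, ∃ g : H, g • ρ w = w := fun w =>
    MulAction.orbitRel_apply.1
      ((MulAction.orbitRel H Z).symm (Quotient.mk_out (s := MulAction.orbitRel H Z) w))
  have hρ' : ∀ (s : H) w, ρ (s • w) = ρ w := fun s w =>
    congrArg Quotient.out (Quotient.sound (MulAction.orbitRel_apply.2 ⟨s, rfl⟩))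
  choose g hg using hρ
  have k0 : ∀ w : Z, (α (g w) * Homeomorph.addLeft (ρ w).1) 0 = w.1 := fun w => by
    change α (g w) ((ρ w).1 + 0) = w.1
    rw [add_zero, ← hs, hg]
  refine ⟨Z, inferInstance, Zc.to_subtype, fun w => α (g w) * Homeomorph.addLeft (ρ w).1,
    ⟨?_, ?_, fun s w => ?_⟩, fun tf h w hw => ?_⟩
  · simp only [k0]
    exact Subtype.val_injective
  · simp only [k0]
    exact Zd.denseRange_val
  · have a := ZR (ρ w).2 ((g (s • w))⁻¹ * s * g w) (by
      rw [← hs, mul_smul, mul_smul, hg, inv_smul_eq_iff.2 (hg (s • w)).symm, hρ'])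
    have t : Tendsto (fun v : X => (ρ w).1 + v) (𝓝 0) (𝓝 (ρ w).1) := by
      simpa using (continuous_const_add (ρ w).1).tendsto 0
    filter_upwards [t.eventually a] with v hv
    change α s (α (g w) ((ρ w).1 + v)) = α (g (s • w)) ((ρ (s • w)).1 + v)
    rw [act_mul, act_mul] at hv
    rw [hρ', ← hv, act_inv_right, hv]
  · by_contra hn
    obtain ⟨V, hV, Vo, Vw⟩ := _root_.eventually_nhds_iff.1 (ZR w.2 h (by rw [← hs, hw]))
    obtain ⟨x, hx, hx'⟩ := tf h hn V Vo ⟨_, Vw⟩
    exact hx' (hV x hx)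

end Pool.Agent.P.MP_af0fcb_gt.SW
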