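import Pool.Agent.P.MP_af0fcb_gt.Defs

namespace Pool.Agent.P.MP_af0fcb_gt.SW

open Set Filter Topology Metric

/-- An action of `H` on `X` by homeomorphisms. -/
abbrev Act (H X : Type) [Group H] [TopologicalSpace X] := H →* (X ≃ₜ X)

/-- An action from a family of continuous maps. -/
def mkAct {H X : Type} [Group H] [TopologicalSpace X] (a : H → X → X)
    (hc : ∀ h, Continuous (a h)) (h1 : ∀ x, a 1 x = x)
    (hm : ∀ g h x, a (g * h) x = a g (a h x)) : Act H X where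
  toFun h :=
    { toFun := a h
      invFun := a h⁻¹
      left_inv := fun x => by rw [← hm, inv_mul_cancel, h1]
      right_inv := fun x => by rw [← hm, mul_inv_cancel, h1]
      continuous_toFun := hc h
      continuous_invFun := hc h⁻¹ }
  map_one' := by ext x; exact h1 x
  map_mul' g h := by ext x; exact hm g h x

theorem mkAct_apply {H X : Type} [Group H] [TopologicalSpace X] (a : H → X → X)
    (hc : ∀ h, Continuous (a h)) (h1 : ∀ x, a 1 x = x)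
    (hm : ∀ g h x, a (g * h) x = a g (a h x)) (h : H) (x : X) :
    mkAct a hc h1 hm h x = a h x := rfl

theorem act_mul {H X : Type} [Group H] [TopologicalSpace X] (α : Act H X) (g h : H) (x : X) :
    α (g * h) x = α g (α h x) := by rw [map_mul]; rfl

theorem act_one {H X : Type} [Group H] [TopologicalSpace X] (α : Act H X) (x : X) :
    α 1 x = x := by rw [map_one]; rfl

theorem act_inv_left {H X : Type} [Group H] [TopologicalSpace X] (α : Act H X) (g : H) (x : X) :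
    α g⁻¹ (α g x) = x := by rw [← act_mul, inv_mul_cancel, act_one]

theorem act_inv_right {H X : Type} [Group H] [TopologicalSpace X] (α : Act H X) (g : H) (x : X) :
    α g (α g⁻¹ x) = x := by rw [← act_mul, mul_inv_cancel, act_one]

/-- Dependent choice. -/
theorem exists_seq {σ : Type} (P : ℕ → σ → Prop) (R : ℕ → σ → σ → Prop) (s0 : σ) (h0 : P 0 s0)
    (hs : ∀ j s, P j s → ∃ s', P (j + 1) s' ∧ R j s s') :
    ∃ f : ℕ → σ, f 0 = s0 ∧ ∀ j, P j (f j) ∧ R j (f j) (f (j + 1)) := by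
  choose! nx h1 h2 using hs
  let f : ℕ → σ := fun j => Nat.rec s0 (fun j s => nx j s) j
  have hP : ∀ j, P j (f j) := fun j => Nat.rec h0 (fun j ih => h1 j _ ih) j
  exact ⟨f, rfl, fun j => ⟨hP j, h2 j _ (hP j)⟩⟩

/-- No element other than `1` is the identity on a nonempty open set. -/
def TopFree {H X : Type} [Group H] [TopologicalSpace X] (α : Act H X) : Prop :=
  ∀ g : H, g ≠ 1 → ∀ V : Set X, IsOpen V → V.Nonempty → ∃ x ∈ V, α g x ≠ x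

/-- Equivariant charts at a dense invariant family of points `κ w 0`. -/
structure Charts {H X W : Type} [Group H] [NormedAddCommGroup X] [MulAction H W]
    (α : Act H X) (κ : W → X ≃ₜ X) : Prop where
  inj : Function.Injective fun w => κ w 0
  dense : DenseRange fun w => κ w 0
  eqv : ∀ (s : H) (w : W), ∀ᶠ v in 𝓝 (0 : X), α s (κ w v) = κ (s • w) v

/-- A dense null family of disjoint balls permuted by the action. -/
structure Balls {H X W : Type} [Group H] [NormedAddCommGroup X] [MulAction H W]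
    (β : Act H X) (Θ : W → X ≃ₜ X) : Prop where
  eqv : ∀ (s : H) (w : W) (v : X), ‖v‖ ≤ 1 → β s (Θ w v) = Θ (s • w) v
  disj : ∀ (w w' : W) (v v' : X), ‖v‖ ≤ 1 → ‖v'‖ ≤ 1 → Θ w v = Θ w' v' → w = w'
  null : ∀ δ : ℝ, 0 < δ → ∀ᶠ w in cofinite, ∀ v v' : X, ‖v‖ ≤ 1 → ‖v'‖ ≤ 1 →
    dist (Θ w v) (Θ w v') ≤ δ
  dense : Dense {x | ∃ (w : W) (v : X), ‖v‖ < 1 ∧ Θ w v = x}

/-- Exhaustions of the group and of the index set. -/
structure Rank {H W : Type} [Group H] [MulAction H W] (S0 : Finset H) (S : ℕ → Finset H)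
    (r : W → ℕ) : Prop where
  sub : S0 ⊆ S 0
  mono : Monotone S
  inv : ∀ j s, s ∈ S j → s⁻¹ ∈ S j
  exh : ∀ s, ∃ j, s ∈ S j
  fin : ∀ j, {w | r w < j}.Finite
  step : ∀ j s w, s ∈ S j → r w < j → r (s • w) < j + 1

/-- Radii decreasing to one. -/
noncomputable def aa (j : ℕ) : ℝ := 1 + 1 / ((j : ℝ) + 1)

/-- Scaling factors. -/
noncomputable def mu (ρ : ℕ → ℝ) (j : ℕ) : ℝ := aa j / ρ j

/-- The tower of conjugating homeomorphisms of the blow-up. -/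
structure Tower {H X W : Type} [Group H] [NormedAddCommGroup X] [NormedSpace ℝ X] [MulAction H W]
    (α : Act H X) (κ : W → X ≃ₜ X) (S : ℕ → Finset H) (r : W → ℕ) (ε : ℝ) (F : ℕ → X ≃ₜ X)
    (ρ : ℕ → ℝ) (E : ℕ → X ≃ₜ X) : Prop where
  pos : ∀ j, 0 < ρ j
  anti : ∀ j, ρ (j + 1) ≤ ρ j
  zero : F 0 = 1
  disj : ∀ j w w' v v', r w < j + 2 → r w' < j + 2 → ‖v‖ ≤ ρ j → ‖v'‖ ≤ ρ j →
    κ w v = κ w' v' → w = w'
  eqv : ∀ j s w v, s ∈ S j → r w < j + 2 → ‖v‖ ≤ ρ j → α s (κ w v) = κ (s • w) v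
  small : ∀ j w v v', r w ≤ j → j ≤ r w + 1 → ‖v‖ ≤ ρ j → ‖v'‖ ≤ ρ j →
    dist (F j (κ w v)) (F j (κ w v')) ≤ ε / 2 ^ j
  ein : ∀ j v, ‖v‖ ≤ ρ j → ‖E j v‖ ≤ ρ j
  esc : ∀ j v, ‖v‖ ≤ ρ (j + 1) → E j v = (mu ρ (j + 1) / mu ρ j) • v
  ins : ∀ j w v, r w < j → ‖v‖ ≤ ρ j → F (j + 1) (κ w v) = F j (κ w (E j v))
  out : ∀ j y, (∀ w v, r w < j → ‖v‖ ≤ ρ j → κ w v ≠ y) → F (j + 1) y = F j y

/-- Gluing. -/
def S_GL : Prop :=
  ∀ (Y E W : Type) [TopologicalSpace Y] [NormedAddCommGroup E] (D : W → Set Y) (u : W → Y → E)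
    (F : Y → E), (∀ w w' y, y ∈ D w → y ∈ D w' → w = w') → (∀ w, Continuous (u w)) →
    (∀ w y, y ∉ D w → u w y = 0) → (∀ w y, y ∈ D w → F y = u w y) →
    (∀ y, (∀ w, y ∉ D w) → F y = 0) →
    (∀ δ : ℝ, 0 < δ → ∀ y, ∃ N ∈ 𝓝 y, ∀ᶠ w in cofinite, ∀ z ∈ N, ‖u w z‖ ≤ δ) → Continuous F

/-- Limits of actions. -/
def S_LIM : Prop :=
  ∀ (H X : Type) [Group H] [MetricSpace X] [CompleteSpace X] (a : ℕ → Act H X) (c : ℝ),
    (∀ s, ∀ᶠ j in atTop, ∀ x, dist (a j s x) (a (j + 1) s x) ≤ c / 2 ^ j) →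
    ∃ β : Act H X, ∀ s x, Tendsto (fun j => a j s x) atTop (𝓝 (β s x))

/-- Radial homeomorphisms. -/
def S_RAD : Prop :=
  ∀ (X : Type) [NormedAddCommGroup X] [NormedSpace ℝ X] (r r' l : ℝ), 0 < r' → r' < r → 0 < l →
    l * r' < r → ∃ E : X ≃ₜ X, (∀ v, r ≤ ‖v‖ → E v = v) ∧ (∀ v, ‖v‖ ≤ r' → E v = l • v) ∧
      ∀ v, ‖v‖ ≤ r → ‖E v‖ ≤ r

/-- Inversion: germ-trivial homeomorphisms act on the unit ball. -/
def S_INV : Prop :=
  ∀ (X : Type) [NormedAddCommGroup X] [NormedSpace ℝ X] [ProperSpace X],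
    ∃ Γ : (X ≃ₜ X) → X → X,
      (∀ η : X ≃ₜ X, (∀ᶠ v in 𝓝 (0 : X), η v = v) → Continuous (Γ η)) ∧
      (∀ η u, 1 ≤ ‖u‖ → Γ η u = u) ∧ (∀ η u, ‖u‖ ≤ 1 → ‖Γ η u‖ ≤ 1) ∧
      (∀ η η' : X ≃ₜ X, η 0 = 0 → η' 0 = 0 → ∀ u, Γ (η * η') u = Γ η (Γ η' u)) ∧
      (∀ u, Γ 1 u = u) ∧
      (∀ η : X ≃ₜ X, η 0 = 0 → (∀ u, ‖u‖ ≤ 1 → Γ η u = u) → η = 1)

/-- Existence of charts. -/
def S_CH : Prop :=
  ∀ (H X : Type) [Group H] [Countable H] [NormedAddCommGroup X] [ProperSpace X] (α : Act H X),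
    ∃ (W : Type) (_ : MulAction H W) (_ : Countable W) (κ : W → X ≃ₜ X), Charts α κ ∧
      (TopFree α → ∀ (h : H) (w : W), h • w = w → h = 1)

/-- Existence of ranks. -/
def S_RK : Prop :=
  ∀ (H W : Type) [Group H] [Countable H] [MulAction H W] [Countable W] (S0 : Finset H),
    ∃ (S : ℕ → Finset H) (r : W → ℕ), Rank S0 S r

/-- A proper, slowly varying function. -/
def S_SLOW : Prop :=
  ∀ (H W : Type) [Group H] [Countable H] [MulAction H W] [Countable W],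
    ∃ L : W → ℝ, Tendsto L cofinite atTop ∧
      ∀ s : H, Tendsto (fun w => L (s • w) - L w) cofinite (𝓝 0)

/-- Existence of towers. -/
def S_TOW : Prop :=
  ∀ (H X W : Type) [Group H] [NormedAddCommGroup X] [NormedSpace ℝ X] [MulAction H W]
    (α : Act H X) (κ : W → X ≃ₜ X) (S0 : Finset H) (S : ℕ → Finset H) (r : W → ℕ) (ε : ℝ),
    Charts α κ → Rank S0 S r → 0 < ε → ∃ F ρ E, Tower α κ S r ε F ρ E

/-- Consecutive conjugates are close. -/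
def S_TA : Prop :=
  ∀ (H X W : Type) [Group H] [NormedAddCommGroup X] [NormedSpace ℝ X] [MulAction H W]
    (α : Act H X) (κ : W → X ≃ₜ X) (S0 : Finset H) (S : ℕ → Finset H) (r : W → ℕ) (ε : ℝ)
    (F : ℕ → X ≃ₜ X) (ρ : ℕ → ℝ) (E : ℕ → X ≃ₜ X), Rank S0 S r → 0 < ε →
    Tower α κ S r ε F ρ E → ∀ j, ∀ s ∈ S (j - 1), ∀ y,
      dist (F j (α s ((F j).symm (F (j + 1) y)))) (F (j + 1) (α s y)) ≤ ε / 2 ^ j

/-- The balls of a tower. -/
def S_TB : Prop :=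
  ∀ (H X W : Type) [Group H] [NormedAddCommGroup X] [NormedSpace ℝ X] [ProperSpace X]
    [MulAction H W] (α : Act H X) (κ : W → X ≃ₜ X) (S0 : Finset H) (S : ℕ → Finset H)
    (r : W → ℕ) (ε : ℝ) (F : ℕ → X ≃ₜ X) (ρ : ℕ → ℝ) (E : ℕ → X ≃ₜ X), Charts α κ →
    Rank S0 S r → 0 < ε → Tower α κ S r ε F ρ E → ∃ Θ : W → X ≃ₜ X,
      (∀ j w v, r w < j → ‖v‖ ≤ 1 →
        ‖(mu ρ j)⁻¹ • v‖ ≤ ρ j ∧ F j (κ w ((mu ρ j)⁻¹ • v)) = Θ w v) ∧
      (∀ w v v', ‖v‖ ≤ 1 → ‖v'‖ ≤ 1 → dist (Θ w v) (Θ w v') ≤ ε / 2 ^ (r w + 1)) ∧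
      Dense {x | ∃ (w : W) (v : X), ‖v‖ < 1 ∧ Θ w v = x}

/-- Blow-up. -/
def S_BL : Prop :=
  ∀ (H X W : Type) [Group H] [Countable H] [NormedAddCommGroup X] [NormedSpace ℝ X]
    [ProperSpace X] [MulAction H W] [Countable W] (α : Act H X) (κ : W → X ≃ₜ X), Charts α κ →
    ∀ (S0 : Finset H) (ε : ℝ), 0 < ε → ∃ (β : Act H X) (Θ : W → X ≃ₜ X), Balls β Θ ∧
      (∀ w v v', ‖v‖ ≤ 1 → ‖v'‖ ≤ 1 → dist (Θ w v) (Θ w v') ≤ ε) ∧
      ∀ s ∈ S0, ∀ x, dist (β s x) (α s x) ≤ ε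

/-- Perturbation of a faithful action that moves a point in a given open set. -/
def S_INS : Prop :=
  ∀ (H X : Type) [Group H] [Countable H] [NormedAddCommGroup X] [NormedSpace ℝ X]
    [ProperSpace X] (α : Act H X), Function.Injective α → ∀ (S0 : Finset H) (ε : ℝ), 0 < ε →
    ∀ V : Set X, IsOpen V → V.Nonempty →
      ∃ α' : Act H X, (∀ s ∈ S0, ∀ x, dist (α' s x) (α s x) ≤ ε) ∧
        ∀ g : H, g ≠ 1 → ∃ x ∈ V, α' g x ≠ x

/-- Topologically free actions. -/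
def S_TF : Prop :=
  ∀ (H X : Type) [Group H] [Countable H] [NormedAddCommGroup X] [NormedSpace ℝ X]
    [ProperSpace X] (α : Act H X), Function.Injective α → ∃ β : Act H X, TopFree β

/-- Generic functions. -/
def S_RIG : Prop :=
  ∀ (Y : Type) [MetricSpace Y] [ProperSpace Y] (G : Y → ℝ), Continuous G → (∀ y, 0 ≤ G y) →
    ∃ F : Y → ℝ, Continuous F ∧ (∀ y, 0 ≤ F y) ∧ (∀ y, F y ≤ G y) ∧ (∀ y, 0 < G y → 0 < F y) ∧
      (∀ V : Set Y, IsOpen V → (∃ y ∈ V, 0 < G y) → ∃ y ∈ V, 0 < G y ∧ IsLocalMax F y) ∧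
      ∀ y y', 0 < G y → 0 < G y' → IsLocalMax F y → IsLocalMax F y' → F y = F y' → y = y'

/-- An invariant function whose symmetries agree with group elements on every piece. -/
def S_ABS : Prop :=
  ∀ (H Y W : Type) [Group H] [MetricSpace Y] [ProperSpace Y] [MulAction H W] (γ : Act H Y)
    (G : W → Y → ℝ), (∀ (h : H) (w : W), h • w = w → h = 1) → (∀ w, Continuous (G w)) →
    (∀ w y, 0 ≤ G w y) → (∀ w w' y, 0 < G w y → 0 < G w' y → w = w') →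
    (∀ w, IsPreconnected {y | 0 < G w y}) → (∀ (h : H) w y, G (h • w) (γ h y) = G w y) →
    (∀ δ : ℝ, 0 < δ → ∀ y, ∃ N ∈ 𝓝 y, ∀ᶠ w in cofinite, ∀ z ∈ N, G w z ≤ δ) →
    ∃ f : Y → ℝ, Continuous f ∧ (∀ h y, f (γ h y) = f y) ∧
      ∀ A : Y ≃ₜ Y, (∀ y, f (A y) = f y) → ∀ w, ∃ h, ∀ y, 0 < G w y → A y = γ h y

/-- The skew product action and its invariant family of bumps. -/
def S_SKEW : Prop :=
  ∀ (H X W P : Type) [Group H] [Countable H] [NormedAddCommGroup X] [NormedAddCommGroup P]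
    [MulAction H W] [Countable W] (β : Act H X) (Θ : W → X ≃ₜ X), Balls β Θ →
    ∃ (γ : Act H (X × X × ℝ × P)) (G : W → X × X × ℝ × P → ℝ),
      (∀ h y, (γ h y).1 = β h y.1 ∧ (γ h y).2.1 = β h y.2.1) ∧ (∀ w, Continuous (G w)) ∧
      (∀ w y, 0 ≤ G w y) ∧ (∀ w y, 0 < G w y ↔ ∃ v, ‖v‖ < 1 ∧ Θ w v = y.1) ∧
      (∀ (h : H) w y, G (h • w) (γ h y) = G w y) ∧
      ∀ δ : ℝ, 0 < δ → ∀ y, ∃ N ∈ 𝓝 y, ∀ᶠ w in cofinite, ∀ z ∈ N, G w z ≤ δ

/-- Realization. -/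
def S_REAL : Prop :=
  ∀ (H X W P : Type) [Group H] [Countable H] [NormedAddCommGroup X] [NormedSpace ℝ X]
    [ProperSpace X] [NormedAddCommGroup P] [NormedSpace ℝ P] [ProperSpace P] [MulAction H W]
    [Countable W] (β : Act H X) (Θ : W → X ≃ₜ X), Balls β Θ →
    (∀ (h : H) (w : W), h • w = w → h = 1) → InClass (X × X × ℝ × P) H

end Pool.Agent.P.MP_af0fcb_gt.SW
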