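import Pool.Agent.P.MP_af0fcb_gt.SW.Defs

namespace Pool.Agent.P.MP_af0fcb_gt.SW

open Set Filter Topology Metric

namespace INSx

theorem glue {X W : Type} [NormedAddCommGroup X] (hGL : S_GL) (Θ : W → X ≃ₜ X) (γ : W → X → X)
    (hdisj : ∀ (w w' : W) (v v' : X), ‖v‖ ≤ 1 → ‖v'‖ ≤ 1 → Θ w v = Θ w' v' → w = w')
    (hnull : ∀ δ : ℝ, 0 < δ → ∀ᶠ w in cofinite, ∀ v v' : X, ‖v‖ ≤ 1 → ‖v'‖ ≤ 1 →
      dist (Θ w v) (Θ w v') ≤ δ)
    (hc : ∀ w, Continuous (γ w)) (h1 : ∀ w u, 1 ≤ ‖u‖ → γ w u = u)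
    (h2 : ∀ w u, ‖u‖ ≤ 1 → ‖γ w u‖ ≤ 1) :
    ∃ Ξ : X → X, Continuous Ξ ∧ (∀ w v, ‖v‖ ≤ 1 → Ξ (Θ w v) = Θ w (γ w v)) ∧
      ∀ x, (∀ w v, ‖v‖ ≤ 1 → Θ w v ≠ x) → Ξ x = x := by
  classical
  let Ξ : X → X := fun x =>
    if hx : ∃ w, ‖(Θ w).symm x‖ ≤ 1 then Θ hx.choose (γ hx.choose ((Θ hx.choose).symm x)) else x
  have hin : ∀ w x, ‖(Θ w).symm x‖ ≤ 1 → Ξ x = Θ w (γ w ((Θ w).symm x)) := by
    intro w x hw
    have hx : ∃ w, ‖(Θ w).symm x‖ ≤ 1 := ⟨w, hw⟩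
    have he : hx.choose = w :=
      hdisj _ _ _ _ hx.choose_spec hw (by simp)
    simp only [Ξ, dif_pos hx]
    rw [he]
  have hout : ∀ x, (∀ w, ¬ ‖(Θ w).symm x‖ ≤ 1) → Ξ x = x := by
    intro x hx
    have hx' : ¬ ∃ w, ‖(Θ w).symm x‖ ≤ 1 := fun ⟨w, hw⟩ => hx w hw
    simp only [Ξ, dif_neg hx']
  have hF : Continuous fun x => Ξ x - x := by
    refine hGL X X W (fun w => {x | ‖(Θ w).symm x‖ ≤ 1})
      (fun w y => Θ w (γ w ((Θ w).symm y)) - y) _ ?_ ?_ ?_ ?_ ?_ ?_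
    · intro w w' y hw hw'
      exact hdisj _ _ _ _ hw hw' (by simp)
    · intro w
      exact ((Θ w).continuous.comp ((hc w).comp (Θ w).symm.continuous)).sub continuous_id
    · intro w y hy
      have hy' : 1 ≤ ‖(Θ w).symm y‖ := le_of_lt (not_le.mp hy)
      simp [h1 w _ hy']
    · intro w y hy
      simp only [hin w y hy]
    · intro y hy
      simp only [hout y hy, sub_self]
    · intro δ hδ y
      refine ⟨univ, univ_mem, (hnull δ hδ).mono fun w hw z _ => ?_⟩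
      by_cases hz : ‖(Θ w).symm z‖ ≤ 1
      · have := hw _ _ (h2 w _ hz) hz
        rw [dist_eq_norm] at this
        simpa using this
      · have hy' : 1 ≤ ‖(Θ w).symm z‖ := le_of_lt (not_le.mp hz)
        simp [h1 w _ hy', hδ.le]
  refine ⟨Ξ, ?_, ?_, ?_⟩
  · exact (hF.add continuous_id).congr fun x => by simp
  · intro w v hv
    have := hin w (Θ w v) (by simpa using hv)
    simpa using this
  · intro x hx
    exact hout x fun w hw => hx w _ hw (by simp)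

end INSx

theorem p_INS (hGL : S_GL) (hINV : S_INV) (hCH : S_CH) (hBL : S_BL) : S_INS := by
  intro H X _ _ _ _ _ α hα S0 ε hε V hV hne
  obtain ⟨q, hq⟩ := hne
  obtain ⟨r, hr, hball⟩ := Metric.isOpen_iff.mp hV q hq
  obtain ⟨W, _, _, κ, hκ, -⟩ := hCH H X α
  have he : 0 < min (ε / 2) (r / 3) := lt_min (by linarith) (by linarith)
  obtain ⟨β, Θ, hB, hsm, hβ⟩ := hBL H X W α κ hκ S0 _ he
  obtain ⟨Γ, hΓc, hΓ1, hΓ2, hΓm, hΓo, hΓf⟩ := hINV X
  let η : H → W → X ≃ₜ X := fun h w => (κ (h • w))⁻¹ * α h * κ w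
  have hηm : ∀ g h w, η (g * h) w = η g (h • w) * η h w := by
    intro g h w
    simp only [η, map_mul, mul_smul]
    group
  have hη1 : ∀ w, η 1 w = 1 := by
    intro w
    simp [η]
  have hηe : ∀ h w, ∀ᶠ v in 𝓝 (0 : X), η h w v = v := by
    intro h w
    refine (hκ.eqv h w).mono fun v hv => ?_
    change (κ (h • w)).symm (α h (κ w v)) = v
    rw [hv]
    simp
  have hη0 : ∀ h w, η h w 0 = 0 := fun h w => (hηe h w).self_of_nhds
  have hex : ∀ h : H, ∃ Ξ : X → X, Continuous Ξ ∧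
      (∀ w v, ‖v‖ ≤ 1 → Ξ (Θ w v) = Θ w (Γ (η h w) v)) ∧
      ∀ x, (∀ w v, ‖v‖ ≤ 1 → Θ w v ≠ x) → Ξ x = x := fun h =>
    INSx.glue hGL Θ (fun w => Γ (η h w)) hB.disj hB.null (fun w => hΓc _ (hηe h w))
      (fun w u hu => hΓ1 _ u hu) (fun w u hu => hΓ2 _ u hu)
  choose Ξ hΞc hΞi hΞo using hex
  let a : H → X → X := fun h x => β h (Ξ h x)
  have hai : ∀ h w v, ‖v‖ ≤ 1 → a h (Θ w v) = Θ (h • w) (Γ (η h w) v) := by
    intro h w v hv
    simp only [a]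
    rw [hΞi h w v hv, hB.eqv h w _ (hΓ2 _ v hv)]
  have hao : ∀ h x, (∀ w v, ‖v‖ ≤ 1 → Θ w v ≠ x) → a h x = β h x := by
    intro h x hx
    simp only [a]
    rw [hΞo h x hx]
  have hoff : ∀ h x, (∀ w v, ‖v‖ ≤ 1 → Θ w v ≠ x) → ∀ w v, ‖v‖ ≤ 1 → Θ w v ≠ β h x := by
    intro h x hx w v hv hw
    refine hx (h⁻¹ • w) v hv ?_
    rw [← hB.eqv h⁻¹ w v hv, hw, act_inv_left]
  have hcases : ∀ x, (∃ w v, ‖v‖ ≤ 1 ∧ Θ w v = x) ∨ ∀ w v, ‖v‖ ≤ 1 → Θ w v ≠ x := by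
    intro x
    by_cases hx : ∃ w v, ‖v‖ ≤ 1 ∧ Θ w v = x
    · exact Or.inl hx
    · exact Or.inr fun w v hv hw => hx ⟨w, v, hv, hw⟩
  have hac : ∀ h, Continuous (a h) := fun h => (β h).continuous.comp (hΞc h)
  have ha1 : ∀ x, a 1 x = x := by
    intro x
    rcases hcases x with ⟨w, v, hv, rfl⟩ | hx
    · rw [hai 1 w v hv, hη1, hΓo, one_smul]
    · rw [hao 1 x hx, act_one]
  have ham : ∀ g h x, a (g * h) x = a g (a h x) := by
    intro g h x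
    rcases hcases x with ⟨w, v, hv, rfl⟩ | hx
    · rw [hai _ w v hv, hai h w v hv, hai g _ _ (hΓ2 _ v hv), hηm,
        hΓm _ _ (hη0 _ _) (hη0 _ _), mul_smul]
    · rw [hao _ x hx, hao h x hx, hao g _ (hoff h x hx), act_mul]
  refine ⟨mkAct a hac ha1 ham, ?_, ?_⟩
  · intro s hs x
    rw [mkAct_apply]
    have h1 : dist (a s x) (β s x) ≤ min (ε / 2) (r / 3) := by
      rcases hcases x with ⟨w, v, hv, rfl⟩ | hx
      · rw [hai s w v hv, hB.eqv s w v hv]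
        exact hsm _ _ _ (hΓ2 _ v hv) hv
      · rw [hao s x hx, dist_self]
        exact he.le
    have h2 := hβ s hs x
    have h3 := dist_triangle (a s x) (β s x) (α s x)
    have h4 := min_le_left (ε / 2) (r / 3)
    linarith
  · intro g hg
    obtain ⟨y, ⟨w, v, hv, rfl⟩, hy⟩ := hB.dense.exists_mem_open (U := ball q (r / 3)) isOpen_ball
      ⟨q, mem_ball_self (by linarith)⟩
    have hD : ∀ u, ‖u‖ ≤ 1 → Θ w u ∈ V := by
      intro u hu
      apply hball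
      rw [mem_ball] at hy ⊢
      have h1 := hsm w u v hu hv.le
      have h3 := dist_triangle (Θ w u) (Θ w v) q
      have h4 := min_le_right (ε / 2) (r / 3)
      linarith
    by_cases hw : g • w = w
    · have hne : η g w ≠ 1 := by
        intro h
        apply hg
        apply hα
        rw [map_one]
        simp only [η, hw] at h
        have h' : α g = κ w * ((κ w)⁻¹ * α g * κ w) * (κ w)⁻¹ := by group
        rw [h', h]
        simp
      have : ¬ ∀ u, ‖u‖ ≤ 1 → Γ (η g w) u = u := fun h => hne (hΓf _ (hη0 _ _) h)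
      push Not at this
      obtain ⟨u, hu, hu'⟩ := this
      refine ⟨Θ w u, hD u hu, ?_⟩
      rw [mkAct_apply, hai g w u hu, hw]
      exact fun h => hu' ((Θ w).injective h)
    · have h0 : ‖(0 : X)‖ ≤ 1 := by simp
      refine ⟨Θ w 0, hD 0 h0, ?_⟩
      rw [mkAct_apply, hai g w 0 h0]
      exact fun h => hw (hB.disj _ _ _ _ (hΓ2 _ 0 h0) h0 h)

end Pool.Agent.P.MP_af0fcb_gt.SW
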