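import Pool.Agent.P.MP_af0fcb_gt.SW.Defs

namespace Pool.Agent.P.MP_af0fcb_gt.SW

open Set Filter Topology Metric

namespace INVx

variable {X : Type} [NormedAddCommGroup X] [NormedSpace ℝ X]

/-- Inversion from the punctured space to the punctured ball. -/
noncomputable def sig (v : X) : X := (‖v‖ * (1 + ‖v‖))⁻¹ • v

/-- Inversion from the punctured ball to the punctured space. -/
noncomputable def tau (u : X) : X := ((1 - ‖u‖) / ‖u‖ ^ 2) • u

open Classical in
/-- The conjugate by the inversion. -/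
noncomputable def Gam (η : X ≃ₜ X) (u : X) : X :=
  if 0 < ‖u‖ ∧ ‖u‖ < 1 then sig (η (tau u)) else u

theorem norm_sig {v : X} (h : v ≠ 0) : ‖sig v‖ = 1 / (1 + ‖v‖) := by
  have := norm_pos_iff.2 h
  rw [sig, norm_smul, Real.norm_of_nonneg (by positivity)]
  field_simp

theorem sig_mem {v : X} (h : v ≠ 0) : 0 < ‖sig v‖ ∧ ‖sig v‖ < 1 := by
  have := norm_pos_iff.2 h
  rw [norm_sig h]
  exact ⟨by positivity, (div_lt_one (by positivity)).2 (by linarith)⟩

theorem tau_sig {v : X} (h : v ≠ 0) : tau (sig v) = v := by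
  have := norm_pos_iff.2 h
  rw [tau, norm_sig h, sig, smul_smul]
  have e : (1 - 1 / (1 + ‖v‖)) / (1 / (1 + ‖v‖)) ^ 2 * (‖v‖ * (1 + ‖v‖))⁻¹ = 1 := by
    field_simp; ring
  rw [e, one_smul]

theorem norm_tau {u : X} (h : 0 < ‖u‖ ∧ ‖u‖ < 1) : ‖tau u‖ = 1 / ‖u‖ - 1 := by
  have h0 := h.1
  have h1 : 0 < 1 - ‖u‖ := by linarith [h.2]
  rw [tau, norm_smul, Real.norm_of_nonneg (by positivity)]
  field_simp

theorem tau_ne {u : X} (h : 0 < ‖u‖ ∧ ‖u‖ < 1) : tau u ≠ 0 := by
  rw [← norm_pos_iff, norm_tau h, sub_pos]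
  exact (one_lt_div h.1).2 h.2

theorem sig_tau {u : X} (h : 0 < ‖u‖ ∧ ‖u‖ < 1) : sig (tau u) = u := by
  have h0 := h.1.ne'
  have h1 : 1 - ‖u‖ ≠ 0 := by linarith [h.2]
  rw [sig, norm_tau h, tau, smul_smul]
  have e : ((1 / ‖u‖ - 1) * (1 + (1 / ‖u‖ - 1)))⁻¹ * ((1 - ‖u‖) / ‖u‖ ^ 2) = 1 := by
    have : (1 / ‖u‖ - 1) * (1 + (1 / ‖u‖ - 1)) = (1 - ‖u‖) / ‖u‖ ^ 2 := by field_simp; ring
    rw [this]
    exact inv_mul_cancel₀ (div_ne_zero h1 (pow_ne_zero _ h0))
  rw [e, one_smul]

omit [NormedSpace ℝ X] in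
theorem ne {η : X ≃ₜ X} (h : η 0 = 0) {v : X} (hv : v ≠ 0) : η v ≠ 0 :=
  fun e => hv (η.injective (e.trans h.symm))

theorem cont_sig {v : X} (h : v ≠ 0) : ContinuousAt sig v := by
  have := norm_pos_iff.2 h
  exact ((continuous_norm.mul (continuous_const.add continuous_norm)).continuousAt.inv₀
    (show ‖v‖ * (1 + ‖v‖) ≠ 0 by positivity)).smul continuousAt_id

theorem cont_tau {u : X} (h : 0 < ‖u‖) : ContinuousAt tau u :=
  ((continuous_const.sub continuous_norm).continuousAt.div (continuous_norm.pow 2).continuousAt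
    (pow_ne_zero 2 h.ne')).smul continuousAt_id

theorem cont [ProperSpace X] (η : X ≃ₜ X) (h : ∀ᶠ v in 𝓝 (0 : X), η v = v) :
    Continuous (Gam η) := by
  have h0 : η 0 = 0 := h.self_of_nhds
  refine continuous_iff_continuousAt.2 fun u => ?_
  rcases (norm_nonneg u).eq_or_lt with hu | hu
  · obtain rfl : u = 0 := norm_eq_zero.1 hu.symm
    refine Metric.continuousAt_iff.2 fun e he => ?_
    obtain ⟨R, R0, hR⟩ := ((η.isCompact_preimage.2
      (isCompact_closedBall (0 : X) (1 / e))).isBounded).exists_pos_norm_le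
    refine ⟨min e (1 / (R + 1)), by positivity, fun {x} hx => ?_⟩
    have g0 : Gam η 0 = 0 := if_neg (by simp)
    rw [dist_zero_right, lt_min_iff] at hx
    rw [g0, dist_zero_right, Gam]
    split_ifs with c
    · have a : ¬‖tau x‖ ≤ R := by
        rw [norm_tau c, not_le, lt_sub_iff_add_lt, lt_div_iff₀ c.1]
        have := (lt_div_iff₀ (by positivity)).1 hx.2
        linarith
      have b : 1 / e < ‖η (tau x)‖ := not_le.1 fun b => a (hR _ (mem_closedBall_zero_iff.2 b))
      rw [norm_sig (ne h0 (tau_ne c)), div_lt_iff₀ (by positivity)]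
      have := (div_lt_iff₀ he).1 b
      nlinarith
    · exact hx.1
  rcases lt_trichotomy ‖u‖ 1 with h1 | h1 | h1
  · refine ContinuousAt.congr (f := fun x => sig (η (tau x)))
      (ContinuousAt.comp (f := fun x => η (tau x)) (cont_sig (ne h0 (tau_ne ⟨hu, h1⟩)))
        (η.continuous.continuousAt.comp (cont_tau hu))) ?_
    filter_upwards [continuous_norm.continuousAt.eventually (Ioo_mem_nhds hu h1)] with x hx
    exact (if_pos hx).symm
  · have t : Tendsto tau (𝓝 u) (𝓝 0) := by
      have := cont_tau hu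
      rwa [ContinuousAt, tau, h1, sub_self, zero_div, zero_smul] at this
    refine ContinuousAt.congr (f := id) continuousAt_id ?_
    filter_upwards [t.eventually h] with x hx
    rw [Gam]
    split_ifs with c
    · rw [hx, sig_tau c]; rfl
    · rfl
  · refine ContinuousAt.congr (f := id) continuousAt_id ?_
    filter_upwards [continuous_norm.continuousAt.eventually (Ioi_mem_nhds h1)] with x hx
    exact (if_neg fun c => lt_asymm c.2 hx).symm

end INVx

open INVx in
theorem p_INV : S_INV := by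
  intro X _ _ _
  refine ⟨Gam, cont, fun η u h => if_neg fun c => not_lt.2 h c.2, fun η u h => ?_,
    fun η η' _ h' u => ?_, fun u => ?_, fun η h0 h => ?_⟩
  · rw [Gam]
    split_ifs with c
    · by_cases e : η (tau u) = 0
      · simp [e, sig]
      · exact (sig_mem e).2.le
    · exact h
  · by_cases c : 0 < ‖u‖ ∧ ‖u‖ < 1
    · have e := ne h' (tau_ne c)
      rw [Gam, if_pos c, Gam, Gam, if_pos c, if_pos (sig_mem e), tau_sig e]
      rfl
    · have e : ∀ ζ : X ≃ₜ X, Gam ζ u = u := fun ζ => if_neg c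
      rw [e, e, e]
  · rw [Gam]
    split_ifs with c
    · exact sig_tau c
    · rfl
  · ext v
    by_cases e : v = 0
    · rw [e, h0]; rfl
    · have a := h _ (sig_mem e).2.le
      rw [Gam, if_pos (sig_mem e), tau_sig e] at a
      have b := congrArg tau a
      rwa [tau_sig (ne h0 e), tau_sig e] at b

end Pool.Agent.P.MP_af0fcb_gt.SW
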