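import Pool.Agent.P.MP_af0fcb_gt.SW.Defs

/-! Radial homeomorphisms. -/

namespace Pool.Agent.P.MP_af0fcb_gt.SW

open Set Filter Topology Metric

namespace RADx

variable {X : Type} [NormedAddCommGroup X] [NormedSpace ℝ X]

/-- The radial map of an order isomorphism. -/
noncomputable def rad (e : ℝ ≃o ℝ) (v : X) : X := (e ‖v‖ / ‖v‖) • v

theorem nn {e : ℝ ≃o ℝ} (h : e 0 = 0) {t : ℝ} (ht : 0 ≤ t) : 0 ≤ e t := h ▸ e.monotone ht

theorem norm_rad {e : ℝ ≃o ℝ} (h : e 0 = 0) (v : X) : ‖rad e v‖ = e ‖v‖ := by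
  rcases eq_or_ne v 0 with rfl | hv
  · simp [rad, h]
  · rw [rad, norm_smul, Real.norm_eq_abs, abs_of_nonneg (div_nonneg (nn h (norm_nonneg _))
      (norm_nonneg _)), div_mul_cancel₀ _ (norm_ne_zero_iff.2 hv)]

theorem rad_rad {e : ℝ ≃o ℝ} (h : e 0 = 0) (v : X) : rad e.symm (rad e v) = v := by
  rcases eq_or_ne v 0 with rfl | hv
  · simp [rad]
  · have h1 : ‖v‖ ≠ 0 := norm_ne_zero_iff.2 hv
    have h2 : e ‖v‖ ≠ 0 := fun a => h1 (e.injective (a.trans h.symm))
    rw [rad, norm_rad h, e.symm_apply_apply, rad, smul_smul,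
      show ‖v‖ / e ‖v‖ * (e ‖v‖ / ‖v‖) = 1 by field_simp, one_smul]

theorem cont {e : ℝ ≃o ℝ} (h : e 0 = 0) : Continuous (rad e : X → X) := by
  refine continuous_iff_continuousAt.2 fun v => ?_
  rcases eq_or_ne v 0 with rfl | hv
  · have : rad e (0 : X) = 0 := by simp [rad]
    rw [ContinuousAt, this, tendsto_zero_iff_norm_tendsto_zero]
    simp only [norm_rad h]
    exact (e.continuous.comp continuous_norm).tendsto' 0 0 (by simp [h])
  · exact (((e.continuous.comp continuous_norm).continuousAt).div continuous_norm.continuousAt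
      (norm_ne_zero_iff.2 hv)).smul continuousAt_id

theorem exists_iso {r r' l : ℝ} (h0 : 0 < r') (h1 : r' < r) (h2 : 0 < l) (h3 : l * r' < r) :
    ∃ e : ℝ ≃o ℝ, (∀ t, r ≤ t → e t = t) ∧ ∀ t, t ≤ r' → e t = l * t := by
  obtain ⟨k, hk, k0⟩ : ∃ k : ℝ, k * (r - r') = r - l * r' ∧ 0 < k :=
    ⟨(r - l * r') / (r - r'), div_mul_cancel₀ _ (by linarith), div_pos (by linarith) (by linarith)⟩
  let φ : ℝ → ℝ := fun t => l * min t r' + k * (min (max t r') r - r') + (max t r - r)
  have a1 : ∀ t, r ≤ t → φ t = t := fun t ht => by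
    simp only [φ]
    rw [min_eq_right (by linarith), max_eq_left (by linarith), min_eq_right ht, max_eq_left ht]
    linarith
  have a2 : ∀ t, t ≤ r' → φ t = l * t := fun t ht => by
    simp only [φ]
    rw [min_eq_left ht, max_eq_right ht, min_eq_left h1.le, max_eq_right (by linarith)]
    ring
  have hm : StrictMono φ := fun s t h => by
    simp only [φ, min_def, max_def]
    split_ifs <;> nlinarith
  have hc : Continuous φ := by fun_prop
  have hs : Function.Surjective φ := hc.surjective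
    (tendsto_id.congr' ((eventually_ge_atTop r).mono fun t ht => (a1 t ht).symm))
    ((tendsto_id.const_mul_atBot h2).congr'
      ((eventually_le_atBot r').mono fun t ht => (a2 t ht).symm))
  exact ⟨hm.orderIsoOfSurjective φ hs, a1, a2⟩

end RADx

open RADx in
theorem p_RAD : S_RAD := by
  intro X _ _ r r' l h0 h1 h2 h3
  obtain ⟨e, a1, a2⟩ := exists_iso h0 h1 h2 h3
  have e0 : e 0 = 0 := by rw [a2 0 h0.le, mul_zero]
  have e0' : e.symm 0 = 0 := e.symm_apply_eq.2 e0.symm
  refine ⟨⟨⟨rad e, rad e.symm, rad_rad e0, rad_rad e0'⟩, cont e0, cont e0'⟩, fun v hv => ?_,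
    fun v hv => ?_, fun v hv => ?_⟩
  · show rad e v = v
    rw [rad, a1 _ hv, div_self (by linarith), one_smul]
  · show rad e v = _
    rcases eq_or_ne v 0 with rfl | hv0
    · simp [rad]
    · rw [rad, a2 _ hv, mul_div_cancel_right₀ _ (norm_ne_zero_iff.2 hv0)]
  · show ‖rad e v‖ ≤ r
    rw [norm_rad e0, ← a1 r le_rfl]
    exact e.monotone hv

end Pool.Agent.P.MP_af0fcb_gt.SW
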