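import Pool.Agent.P.MP_af0fcb_gt.SW.Defs

namespace Pool.Agent.P.MP_af0fcb_gt.SW

open Set Filter Topology Metric

namespace RKx

theorem exh (A : Type) [Countable A] :
    ∃ T : ℕ → Finset A, Monotone T ∧ ∀ a, ∃ j, a ∈ T j := by
  obtain ⟨e, he⟩ := exists_injective_nat A
  have hf : ∀ j, {a | e a ≤ j}.Finite := fun j => (finite_Iic j).preimage he.injOn
  refine ⟨fun j => (hf j).toFinset, fun i j hij a ha => ?_, fun a => ⟨e a, by simp⟩⟩
  simp only [Finite.mem_toFinset, mem_ofPred_eq] at ha ⊢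
  exact ha.trans hij

theorem sq {a b : ℝ} (ha : 0 ≤ a) (hb : 0 < b) (h1 : a ≤ b + 1) (h2 : b ≤ a + 1) :
    |√a - √b| ≤ (√b)⁻¹ := by
  have h3 := Real.sqrt_pos.2 hb
  have h4 := Real.sqrt_nonneg a
  have h5 := Real.mul_self_sqrt ha
  have h6 := Real.mul_self_sqrt hb.le
  rw [← one_div, le_div_iff₀ h3]
  rcases le_total (√a) (√b) with h | h
  · rw [abs_of_nonpos (sub_nonpos.2 h)]; nlinarith
  · rw [abs_of_nonneg (sub_nonneg.2 h)]; nlinarith

end RKx

open RKx in
theorem p_RK : S_RK := by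
  classical
  intro H W _ _ _ _ S0
  obtain ⟨T, hT, eT⟩ := exh H
  obtain ⟨A, -, eA⟩ := exh W
  let S : ℕ → Finset H := fun j => (S0 ∪ T j) ∪ (S0 ∪ T j).image fun s => s⁻¹
  let Z : ℕ → Finset W := fun j =>
    Nat.rec ∅ (fun j Y => (Y ∪ A j) ∪ Finset.image₂ (fun s w => s • w) (S j) Y) j
  have hZ : ∀ j, Z (j + 1) = (Z j ∪ A j) ∪ Finset.image₂ (fun s w => s • w) (S j) (Z j) :=
    fun j => rfl
  have mZ : Monotone Z := monotone_nat_of_le_succ fun j w hw => by
    rw [hZ]; exact Finset.mem_union_left _ (Finset.mem_union_left _ hw)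
  have eZ : ∀ w, ∃ j, w ∈ Z (j + 1) := fun w => (eA w).imp fun j hj => by
    rw [hZ]; exact Finset.mem_union_left _ (Finset.mem_union_right _ hj)
  have key : ∀ j w, Nat.find (eZ w) < j ↔ w ∈ Z j := by
    refine fun j w => ⟨fun h => mZ h (Nat.find_spec (eZ w)), fun h => ?_⟩
    cases j with
    | zero => exact absurd h (Finset.notMem_empty w)
    | succ j => exact Nat.lt_succ_of_le (Nat.find_min' _ h)
  refine ⟨S, fun w => Nat.find (eZ w), fun s hs => ?_, fun i j hij => ?_, fun j s hs => ?_,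
    fun s => ?_, fun j => ?_, fun j s w hs hw => ?_⟩
  · exact Finset.mem_union_left _ (Finset.mem_union_left _ hs)
  · have := Finset.union_subset_union_right (s := S0) (hT hij)
    exact Finset.union_subset_union this (Finset.image_subset_image this)
  · rcases Finset.mem_union.1 hs with h | h
    · exact Finset.mem_union_right _ (Finset.mem_image_of_mem _ h)
    · obtain ⟨t, ht, rfl⟩ := Finset.mem_image.1 h
      rw [inv_inv]
      exact Finset.mem_union_left _ ht
  · exact (eT s).imp fun j hj => Finset.mem_union_left _ (Finset.mem_union_right _ hj)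
  · exact (Z j).finite_toSet.subset fun w hw => (key j w).1 hw
  · rw [key] at hw ⊢
    rw [hZ]
    exact Finset.mem_union_right _ (Finset.mem_image₂_of_mem hs hw)

open RKx in
theorem p_SLOW : S_SLOW := by
  intro H W _ _ _ _
  obtain ⟨S, r, h⟩ := p_RK H W ∅
  have h1 : Tendsto r cofinite atTop := tendsto_atTop.2 fun j => by
    simpa only [eventually_cofinite, not_le] using h.fin j
  have h2 : Tendsto (fun w => √(r w : ℝ)) cofinite atTop :=
    Real.tendsto_sqrt_atTop.comp (tendsto_natCast_atTop_atTop.comp h1)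
  refine ⟨_, h2, fun s => ?_⟩
  obtain ⟨i, hi⟩ := h.exh s
  have h3 : Tendsto (fun w => r (s • w)) cofinite atTop :=
    h1.comp (MulAction.injective s).tendsto_cofinite
  refine squeeze_zero_norm' ?_ h2.inv_tendsto_atTop
  filter_upwards [h1.eventually_ge_atTop (i + 1), h3.eventually_ge_atTop i] with w a b
  have c := h.step (r w + 1) s w (h.mono (by omega) hi) (by omega)
  have d := h.step (r (s • w) + 1) s⁻¹ (s • w) (h.mono (by omega) (h.inv _ _ hi)) (by omega)
  rw [inv_smul_smul] at d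
  exact sq (Nat.cast_nonneg _) (Nat.cast_pos.2 (by omega))
    (by exact_mod_cast Nat.le_of_lt_succ c) (by exact_mod_cast Nat.le_of_lt_succ d)

end Pool.Agent.P.MP_af0fcb_gt.SW
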