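import Pool.Agent.P.MP_af0fcb_gt.SW.Defs

/-! The skew product action and its invariant family of bumps. -/

namespace Pool.Agent.P.MP_af0fcb_gt.SW

open Set Filter Topology Metric

namespace SKEWx

variable {H X W : Type} [Group H] [NormedAddCommGroup X] [MulAction H W]

/-- The bump of the ball `w`. -/
noncomputable def phi (Θ : W → X ≃ₜ X) (w : W) (x : X) : ℝ := max 0 (1 - ‖(Θ w).symm x‖)

theorem phi_cont (Θ : W → X ≃ₜ X) (w : W) : Continuous (phi Θ w) :=
  continuous_const.max (continuous_const.sub (Θ w).symm.continuous.norm)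

theorem phi_nonneg (Θ : W → X ≃ₜ X) (w : W) (x : X) : 0 ≤ phi Θ w x := le_max_left _ _

theorem phi_le_one (Θ : W → X ≃ₜ X) (w : W) (x : X) : phi Θ w x ≤ 1 :=
  max_le zero_le_one (by linarith [norm_nonneg ((Θ w).symm x)])

theorem phi_zero {Θ : W → X ≃ₜ X} {w : W} {x : X} (h : ¬0 < phi Θ w x) : phi Θ w x = 0 :=
  le_antisymm (not_lt.1 h) (phi_nonneg Θ w x)

theorem phi_pos (Θ : W → X ≃ₜ X) (w : W) (x : X) :
    0 < phi Θ w x ↔ ∃ v, ‖v‖ < 1 ∧ Θ w v = x := by
  rw [phi, lt_max_iff, sub_pos]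
  constructor
  · rintro (h | h)
    · exact (lt_irrefl _ h).elim
    · exact ⟨_, h, (Θ w).apply_symm_apply x⟩
  · rintro ⟨v, hv, rfl⟩
    rw [Homeomorph.symm_apply_apply]
    exact Or.inr hv

variable {β : Act H X} {Θ : W → X ≃ₜ X}

theorem phi_eqv (hB : Balls β Θ) (h : H) (w : W) (x : X) :
    phi Θ (h • w) (β h x) = phi Θ w x := by
  by_cases h1 : ‖(Θ w).symm x‖ ≤ 1
  · have h2 := hB.eqv h w _ h1
    rw [Homeomorph.apply_symm_apply] at h2
    rw [phi, phi, h2, Homeomorph.symm_apply_apply]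
  · have h3 : ¬‖(Θ (h • w)).symm (β h x)‖ ≤ 1 := by
      intro h2
      have h4 := hB.eqv h⁻¹ (h • w) _ h2
      rw [Homeomorph.apply_symm_apply, act_inv_left, inv_smul_smul] at h4
      rw [h4, Homeomorph.symm_apply_apply] at h1
      exact h1 h2
    rw [phi, phi, max_eq_left (by linarith [not_le.1 h1]), max_eq_left (by linarith [not_le.1 h3])]

theorem phi_uniq (hB : Balls β Θ) {w w' : W} {x : X} (h : 0 < phi Θ w x) (h' : 0 < phi Θ w' x) :
    w = w' := by
  obtain ⟨v, hv, e⟩ := (phi_pos Θ w x).1 h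
  obtain ⟨v', hv', e'⟩ := (phi_pos Θ w' x).1 h'
  exact hB.disj w w' v v' hv.le hv'.le (e.trans e'.symm)

open Classical in
/-- The cocycle. -/
noncomputable def co (Θ : W → X ≃ₜ X) (L : W → ℝ) (h : H) (x : X) : ℝ :=
  if hx : ∃ w, 0 < phi Θ w x then (L (h • hx.choose) - L hx.choose) * phi Θ hx.choose x else 0

theorem co_eq (hB : Balls β Θ) (L : W → ℝ) (h : H) {w : W} {x : X} (hx : 0 < phi Θ w x) :
    co Θ L h x = (L (h • w) - L w) * phi Θ w x := by
  have h1 : ∃ w, 0 < phi Θ w x := ⟨w, hx⟩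
  rw [co, dif_pos h1, phi_uniq hB h1.choose_spec hx]

theorem co_zero (L : W → ℝ) (h : H) {x : X} (hx : ∀ w, ¬0 < phi Θ w x) : co Θ L h x = 0 := by
  rw [co, dif_neg (not_exists.2 hx)]

theorem co_one (hB : Balls β Θ) (L : W → ℝ) (x : X) : co Θ L (1 : H) x = 0 := by
  by_cases hx : ∃ w, 0 < phi Θ w x
  · obtain ⟨w, hw⟩ := hx
    rw [co_eq hB L 1 hw, one_smul, sub_self, zero_mul]
  · exact co_zero L 1 (not_exists.1 hx)

theorem co_mul (hB : Balls β Θ) (L : W → ℝ) (g h : H) (x : X) :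
    co Θ L (g * h) x = co Θ L h x + co Θ L g (β h x) := by
  by_cases hx : ∃ w, 0 < phi Θ w x
  · obtain ⟨w, hw⟩ := hx
    have h1 : 0 < phi Θ (h • w) (β h x) := by rwa [phi_eqv hB]
    rw [co_eq hB L _ hw, co_eq hB L _ hw, co_eq hB L _ h1, phi_eqv hB, mul_smul]
    ring
  · have h1 : ∀ w, ¬0 < phi Θ w (β h x) := by
      intro w hw
      rw [← smul_inv_smul h w, phi_eqv hB] at hw
      exact hx ⟨_, hw⟩
    rw [co_zero L _ (not_exists.1 hx), co_zero L _ (not_exists.1 hx), co_zero L _ h1, add_zero]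

theorem co_cont (hGL : S_GL) (hB : Balls β Θ) {L : W → ℝ} (h : H)
    (hL : Tendsto (fun w => L (h • w) - L w) cofinite (𝓝 0)) : Continuous (co Θ L h) := by
  refine hGL X ℝ W (fun w => {x | 0 < phi Θ w x}) (fun w x => (L (h • w) - L w) * phi Θ w x) _
    (fun w w' y => phi_uniq hB) (fun w => continuous_const.mul (phi_cont Θ w))
    (fun w y hy => by rw [phi_zero hy, mul_zero]) (fun w y hy => co_eq hB L h hy)
    (fun y hy => co_zero L h hy) fun δ hδ y => ⟨univ, univ_mem, ?_⟩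
  filter_upwards [hL.eventually (closedBall_mem_nhds 0 hδ)] with w hw z _
  rw [dist_zero_right] at hw
  rw [norm_mul, Real.norm_of_nonneg (phi_nonneg Θ w z)]
  exact (mul_le_of_le_one_right (norm_nonneg _) (phi_le_one Θ w z)).trans hw

end SKEWx

open SKEWx in
theorem p_SKEW (hGL : S_GL) (hS : S_SLOW) : S_SKEW := by
  intro H X W P _ _ _ _ _ _ β Θ hB
  obtain ⟨L, hL, hL'⟩ := hS H W
  have hpos : ∀ t : ℝ, 0 < 1 / (1 + |t|) := fun t => by positivity
  refine ⟨mkAct (fun h (y : X × X × ℝ × P) =>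
      (β h y.1, β h y.2.1, y.2.2.1 + co Θ L h y.1, y.2.2.2)) (fun h => ?_) (fun y => ?_)
      (fun g h y => ?_),
    fun w y => min (phi Θ w y.1) (1 / (1 + |y.2.2.1 - L w * phi Θ w y.1|)),
    fun h y => ⟨rfl, rfl⟩, fun w => ?_, fun w y => le_min (phi_nonneg Θ w _) (hpos _).le,
    fun w y => ?_, fun h w y => ?_, fun δ hδ y => ?_⟩
  · have h1 := co_cont hGL hB h (hL' h)
    have h2 := (β h).continuous
    fun_prop
  · simp only [act_one, co_one hB, add_zero]
  · simp only [act_mul, co_mul hB, add_assoc]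
  · have h1 := phi_cont Θ w
    refine Continuous.min (by fun_prop) (Continuous.div continuous_const (by fun_prop) fun y => ?_)
    positivity
  · rw [lt_min_iff, ← phi_pos]
    exact ⟨fun h => h.1, fun h => ⟨h, hpos _⟩⟩
  · simp only [mkAct_apply, phi_eqv hB]
    by_cases hx : 0 < phi Θ w y.1
    · rw [co_eq hB L h hx]
      congr 4
      ring
    · rw [phi_zero hx, min_eq_left (hpos _).le, min_eq_left (hpos _).le]
  · refine ⟨{z | |z.2.2.1| < |y.2.2.1| + 1}, IsOpen.mem_nhds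
      (isOpen_lt (by fun_prop) continuous_const) (lt_add_one |y.2.2.1|), ?_⟩
    filter_upwards [hL.eventually_ge_atTop ((|y.2.2.1| + 1 + 1 / δ) / δ)] with w hw z hz
    rcases le_or_gt (phi Θ w z.1) δ with h | h
    · exact (min_le_left _ _).trans h
    · refine (min_le_right _ _).trans ?_
      have h1 : |y.2.2.1| + 1 + 1 / δ ≤ L w * δ := (div_le_iff₀ hδ).1 hw
      have h0 : 0 < |y.2.2.1| + 1 + 1 / δ := by positivity
      have h2 : 0 ≤ L w := (div_pos h0 hδ).le.trans hw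
      have h3 : L w * δ ≤ L w * phi Θ w z.1 := mul_le_mul_of_nonneg_left h.le h2
      have h4 : |z.2.2.1| < |y.2.2.1| + 1 := hz
      have h5 : 1 / δ ≤ 1 + |z.2.2.1 - L w * phi Θ w z.1| := by
        have := neg_abs_le (z.2.2.1 - L w * phi Θ w z.1)
        have := le_abs_self z.2.2.1
        linarith
      rw [div_le_iff₀ (by positivity)]
      rw [div_le_iff₀ hδ] at h5
      linarith

end Pool.Agent.P.MP_af0fcb_gt.SW
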