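import Pool.Agent.P.MP_af0fcb_gt.SW.Defs

namespace Pool.Agent.P.MP_af0fcb_gt.SW

open Set Filter Topology Metric

theorem p_TA : S_TA := by
  intro H X W _ _ _ _ α κ S0 S r ε F ρ E hR hε hT j s hs y
  have s1 : s ∈ S j := hR.mono (Nat.sub_le j 1) hs
  have p0 : 0 ≤ ε / 2 ^ j := by positivity
  by_cases hA : ∃ w v, r w < j ∧ ‖v‖ ≤ ρ j ∧ κ w v = y
  · obtain ⟨w, v, h1, h2, rfl⟩ := hA
    have h3 := hT.ein j v h2
    have h4 := hR.step j s w s1 h1
    rw [hT.ins j w v h1 h2, Homeomorph.symm_apply_apply, hT.eqv j s w _ s1 (by omega) h3,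
      hT.eqv j s w v s1 (by omega) h2]
    by_cases h5 : r (s • w) < j
    · rwa [hT.ins j _ v h5 h2, dist_self]
    · rw [hT.out j _ fun w' v' a b c =>
        h5 (hT.disj j w' (s • w) v' v (by omega) (by omega) b h2 c ▸ a)]
      exact hT.small j _ _ _ (by omega) (by omega) h3 h2
  · rw [hT.out j y fun w v a b c => hA ⟨w, v, a, b, c⟩, Homeomorph.symm_apply_apply]
    by_cases hB : ∃ w v, r w < j ∧ ‖v‖ ≤ ρ j ∧ κ w v = α s y
    · obtain ⟨w, v, h1, h2, h3⟩ := hB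
      have h4 : κ (s⁻¹ • w) v = y := by
        rw [← hT.eqv j s⁻¹ w v (hR.inv j s s1) (by omega) h2, h3, act_inv_left]
      have h5 : j ≤ r w + 1 := by
        by_contra h6
        have := hR.step (j - 1) s⁻¹ w (hR.inv _ s hs) (by omega)
        exact hA ⟨_, v, by omega, h2, h4⟩
      rw [← h3, hT.ins j w v h1 h2]
      exact hT.small j w _ _ h1.le h5 h2 (hT.ein j v h2)
    · rwa [hT.out j _ fun w v a b c => hB ⟨w, v, a, b, c⟩, dist_self]

end Pool.Agent.P.MP_af0fcb_gt.SW
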