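import Pool.Agent.P.MP_af0fcb_gt.SW.Defs

/-! The balls of a tower. -/

namespace Pool.Agent.P.MP_af0fcb_gt.SW

open Set Filter Topology Metric

namespace TBx

theorem aa_pos (j : ℕ) : 0 < aa j := by unfold aa; positivity

theorem aa_one (j : ℕ) : 1 ≤ aa j := by
  unfold aa
  have : (0 : ℝ) ≤ 1 / ((j : ℝ) + 1) := by positivity
  linarith

theorem aa_anti : Antitone aa := fun a b h => by
  unfold aa
  have : (a : ℝ) ≤ b := by exact_mod_cast h
  gcongr

theorem aa_lim : Tendsto aa atTop (𝓝 1) := by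
  have := (tendsto_one_div_add_atTop_nhds_zero_nat (𝕜 := ℝ)).const_add 1
  rwa [add_zero] at this

end TBx

open TBx in
theorem p_TB : S_TB := by
  intro H X W _ _ _ _ _ α κ S0 S r ε F ρ E hC hR hε T
  have mp : ∀ j, 0 < mu ρ j := fun j => div_pos (aa_pos j) (T.pos j)
  have nb : ∀ j (v : X), ‖v‖ ≤ aa j → ‖(mu ρ j)⁻¹ • v‖ ≤ ρ j := fun j v hv => by
    rw [norm_smul, Real.norm_of_nonneg (inv_pos.2 (mp j)).le, inv_mul_le_iff₀ (mp j), mu,
      div_mul_cancel₀ _ (T.pos j).ne']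
    exact hv
  obtain ⟨Θ, hΘ⟩ : ∃ Θ : W → X ≃ₜ X, ∀ w v,
      Θ w v = F (r w + 1) (κ w ((mu ρ (r w + 1))⁻¹ • v)) :=
    ⟨fun w => ((Homeomorph.smulOfNeZero _ (inv_pos.2 (mp (r w + 1))).ne').trans (κ w)).trans
      (F (r w + 1)), fun _ _ => rfl⟩
  have inv : ∀ w j, r w < j → ∀ v, ‖v‖ ≤ aa j → F j (κ w ((mu ρ j)⁻¹ • v)) = Θ w v := by
    intro w j hj
    induction j, (show r w + 1 ≤ j from hj) using Nat.le_induction with
    | base => exact fun v _ => (hΘ w v).symm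
    | succ j h ih =>
      intro v hv
      have a := nb _ v hv
      rw [T.ins j w _ h (a.trans (T.anti j)), T.esc j _ a, smul_smul, ← ih h v
        (hv.trans (aa_anti j.le_succ))]
      have := (mp (j + 1)).ne'
      congr 3
      field_simp
  have dm : ∀ w v v', ‖v‖ ≤ aa (r w + 1) → ‖v'‖ ≤ aa (r w + 1) →
      dist (Θ w v) (Θ w v') ≤ ε / 2 ^ (r w + 1) := fun w v v' a b => by
    rw [hΘ, hΘ]
    exact T.small _ w _ _ (Nat.le_succ _) le_rfl (nb _ _ a) (nb _ _ b)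
  refine ⟨Θ, fun j w v hj hv => ⟨nb j v (hv.trans (aa_one j)), inv w j hj v (hv.trans (aa_one j))⟩,
    fun w v v' a b => dm w v v' (a.trans (aa_one _)) (b.trans (aa_one _)),
    Metric.dense_iff.2 fun q d hd => ?_⟩
  by_contra hq
  have h1 : ∀ w v, ‖v‖ ≤ 1 → Θ w v ∉ ball q d := fun w v hv => by
    have : closure (ball (0 : X) 1) ⊆ Θ w ⁻¹' (ball q d)ᶜ :=
      closure_minimal (fun u hu h => hq ⟨_, h, w, u, mem_ball_zero_iff.1 hu, rfl⟩)
        (isOpen_ball.isClosed_compl.preimage (Θ w).continuous)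
    rw [closure_ball _ one_ne_zero] at this
    exact this (mem_closedBall_zero_iff.2 hv)
  have h2 : ∀ w, ∀ᶠ J in atTop, ∀ v, ‖v‖ ≤ aa J → Θ w v ∉ closedBall q (d / 2) := fun w => by
    obtain ⟨b, hb, c⟩ := ((Θ w).isCompact_preimage.2
      (isCompact_closedBall q (d / 2))).exists_forall_le' continuous_norm.continuousOn (a := 1)
      fun v hv => not_le.1 fun h => h1 w v h (closedBall_subset_ball (by linarith) hv)
    filter_upwards [aa_lim.eventually (gt_mem_nhds hb)] with J hJ v hv h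
    linarith [c v h]
  obtain ⟨J, hJ⟩ : ∃ J : ℕ, ε / 2 ^ J < d / 2 := by
    obtain ⟨J, hJ⟩ := pow_unbounded_of_one_lt (ε / (d / 2)) (one_lt_two (α := ℝ))
    refine ⟨J, ?_⟩
    rw [div_lt_iff₀ (by positivity)] at hJ ⊢
    linarith
  obtain ⟨J', h3⟩ := ((eventually_all_finite (hR.fin J)).2 fun w _ => h2 w).exists
  obtain ⟨z, hz⟩ := ((F J').surjective.denseRange.comp hC.dense
    (F J').continuous).exists_dist_lt q (half_pos hd)
  have hz : dist (F J' (κ z 0)) q < d / 2 := by rw [dist_comm]; exact hz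
  have ex : ∀ j, J' ≤ j → (∃ i, J' ≤ i ∧ (∃ w v, r w < i ∧ ‖v‖ ≤ ρ i ∧ κ w v = κ z 0) ∧
      F i (κ z 0) = F J' (κ z 0)) ∨ F j (κ z 0) = F J' (κ z 0) := by
    intro j hj
    induction j, hj using Nat.le_induction with
    | base => exact Or.inr rfl
    | succ j h ih =>
      rcases ih with a | a
      · exact Or.inl a
      by_cases b : ∃ w v, r w < j ∧ ‖v‖ ≤ ρ j ∧ κ w v = κ z 0
      · exact Or.inl ⟨j, h, b, a⟩
      · exact Or.inr ((T.out j _ fun w v c d e => b ⟨w, v, c, d, e⟩).trans a)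
  obtain ⟨i, hi, ⟨w, v, a, b, c⟩, e⟩ : ∃ i, J' ≤ i ∧
      (∃ w v, r w < i ∧ ‖v‖ ≤ ρ i ∧ κ w v = κ z 0) ∧ F i (κ z 0) = F J' (κ z 0) :=
    (ex (J' + r z + 1) (by omega)).elim id fun a => ⟨_, by omega,
      ⟨z, 0, by omega, by rw [norm_zero]; exact (T.pos _).le, rfl⟩, a⟩
  have hu : ‖mu ρ i • v‖ ≤ aa i := by
    rw [norm_smul, Real.norm_of_nonneg (mp i).le, mu, div_mul_eq_mul_div, div_le_iff₀ (T.pos i)]
    exact mul_le_mul_of_nonneg_left b (aa_pos i).le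
  have e2 := inv w i a _ hu
  rw [inv_smul_smul₀ (mp i).ne', c, e] at e2
  rw [e2] at hz
  by_cases hw : r w < J
  · exact h3 w hw _ (hu.trans (aa_anti hi)) hz.le
  refine h1 w 0 (by simp) (mem_ball.2 ?_)
  have d1 := dm w 0 _ (by rw [norm_zero]; exact (aa_pos _).le) (hu.trans (aa_anti a))
  have d2 : ε / 2 ^ (r w + 1) ≤ ε / 2 ^ J :=
    div_le_div_of_nonneg_left hε.le (by positivity) (pow_le_pow_right₀ one_le_two (by omega))
  linarith [dist_triangle (Θ w 0) (Θ w (mu ρ i • v)) q]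

end Pool.Agent.P.MP_af0fcb_gt.SW
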