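import Pool.Agent.P.MP_af0fcb_gt.SW.Defs

/-!
Topologically free actions as limits of perturbations.
-/

namespace Pool.Agent.P.MP_af0fcb_gt.SW

open Set Filter Topology Metric

namespace TFx

/-- One step of the construction. -/
theorem step (h : S_INS) {H X : Type} [Group H] [Countable H] [NormedAddCommGroup X]
    [NormedSpace ℝ X] [ProperSpace X] (a : Act H X) (ha : Function.Injective a) (S0 : Finset H)
    (e : ℝ) (he : 0 < e) (V : Set X) (hV : IsOpen V) (hne : V.Nonempty) (g : H) :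
    ∃ (a' : Act H X) (e' : ℝ), Function.Injective a' ∧ 0 < e' ∧
      (∀ s ∈ S0, ∀ x, dist (a' s x) (a s x) ≤ e) ∧ e' ≤ e / 2 ∧
      (g ≠ 1 → ∃ x ∈ V, 4 * e' ≤ dist (a' g x) x) := by
  obtain ⟨a', h1, h2⟩ := h H X a ha S0 e he V hV hne
  have hinj : Function.Injective a' := by
    rw [injective_iff_map_eq_one]
    intro s hs
    by_contra hs1
    obtain ⟨x, -, hx⟩ := h2 s hs1
    exact hx (by rw [hs]; rfl)
  by_cases hg : g = 1
  · exact ⟨a', e / 2, hinj, by positivity, h1, le_rfl, fun b => absurd hg b⟩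
  · obtain ⟨x, hx, hm⟩ := h2 g hg
    have hd : 0 < dist (a' g x) x := dist_pos.2 hm
    refine ⟨a', min (e / 2) (dist (a' g x) x / 4), hinj, by positivity, h1, min_le_left _ _,
      fun _ => ⟨x, hx, ?_⟩⟩
    have := min_le_right (e / 2) (dist (a' g x) x / 4)
    linarith

end TFx

theorem p_TF (hL : S_LIM) (h : S_INS) : S_TF := by
  classical
  intro H X _ _ _ _ _ α hα
  obtain ⟨en, hen⟩ := exists_surjective_nat (H × ℕ × ℕ)
  let u : ℕ → X := TopologicalSpace.denseSeq X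
  have hu : DenseRange u := TopologicalSpace.denseRange_denseSeq X
  let g : ℕ → H := fun j => (en j).1
  let V : ℕ → Set X := fun j => ball (u (en j).2.1) (1 / (((en j).2.2 : ℝ) + 1))
  let S : ℕ → Finset H := fun j => (Finset.range (j + 1)).image g
  have hS : ∀ j k, j ≤ k → g j ∈ S k := fun j k hjk =>
    Finset.mem_image.2 ⟨j, Finset.mem_range.2 (Nat.lt_succ_of_le hjk), rfl⟩
  obtain ⟨f, -, hf⟩ := exists_seq (σ := Act H X × ℝ)
    (fun j s => Function.Injective s.1 ∧ 0 < s.2 ∧ s.2 ≤ 1 / 2 ^ j)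
    (fun j s s' => (∀ t ∈ S j, ∀ x, dist (s'.1 t x) (s.1 t x) ≤ s.2) ∧ s'.2 ≤ s.2 / 2 ∧
      (g j ≠ 1 → ∃ x ∈ V j, 4 * s'.2 ≤ dist (s'.1 (g j) x) x))
    (α, 1) ⟨hα, one_pos, by simp⟩ (by
      rintro j ⟨a, e⟩ ⟨h1, h2, h3⟩
      obtain ⟨a', e', b1, b2, b3, b4, b5⟩ := TFx.step h a h1 (S j) e h2 (V j) isOpen_ball
        (nonempty_ball.2 (by positivity)) (g j)
      refine ⟨(a', e'), ⟨b1, b2, ?_⟩, b3, b4, b5⟩
      have h3' : e ≤ 1 / 2 ^ j := h3
      show e' ≤ 1 / 2 ^ (j + 1)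
      rw [pow_succ, ← div_div]
      linarith)
  obtain ⟨β, hβ⟩ := hL H X (fun j => (f j).1) 1 (by
    intro s
    obtain ⟨j, hj⟩ := hen (s, 0, 0)
    have hg : g j = s := by simp only [g, hj]
    filter_upwards [eventually_ge_atTop j] with k hk x
    rw [dist_comm]
    exact ((hf k).2.1 s (hg ▸ hS j k hk) x).trans (hf k).1.2.2)
  refine ⟨β, fun s hs W hW ⟨y, hy⟩ => ?_⟩
  obtain ⟨ε, hε, hsub⟩ := Metric.isOpen_iff.1 hW y hy
  obtain ⟨n, hn⟩ := exists_nat_one_div_lt (half_pos hε)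
  obtain ⟨i, hi⟩ := hu.exists_dist_lt y (half_pos hε)
  obtain ⟨j, hj⟩ := hen (s, i, n)
  have hg : g j = s := by simp only [g, hj]
  have hV : V j = ball (u i) (1 / ((n : ℝ) + 1)) := by simp only [V, hj]
  obtain ⟨x, hx, hm⟩ := (hf j).2.2.2 (hg ▸ hs)
  rw [hg] at hm
  rw [hV, mem_ball] at hx
  refine ⟨x, hsub ?_, fun hfix => ?_⟩
  · rw [mem_ball]
    have := dist_triangle x (u i) y
    rw [dist_comm (u i) y] at this
    linarith
  · have key : ∀ m, dist ((f (j + 1 + m)).1 s x) ((f (j + 1)).1 s x) ≤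
        2 * (f (j + 1)).2 - 2 * (f (j + 1 + m)).2 := by
      intro m
      induction m with
      | zero => simp
      | succ m ih =>
        have b1 := (hf (j + 1 + m)).2.1 s (hg ▸ hS j _ (by omega)) x
        have b2 := (hf (j + 1 + m)).2.2.1
        have b3 := dist_triangle ((f (j + 1 + m + 1)).1 s x) ((f (j + 1 + m)).1 s x)
          ((f (j + 1)).1 s x)
        show dist ((f (j + 1 + m + 1)).1 s x) ((f (j + 1)).1 s x) ≤
          2 * (f (j + 1)).2 - 2 * (f (j + 1 + m + 1)).2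
        linarith
    have lim : dist (β s x) ((f (j + 1)).1 s x) ≤ 2 * (f (j + 1)).2 := by
      refine le_of_tendsto ((hβ s x).dist tendsto_const_nhds) ?_
      filter_upwards [eventually_ge_atTop (j + 1)] with k hk
      obtain ⟨m, rfl⟩ := Nat.exists_eq_add_of_le hk
      have := key m
      have := (hf (j + 1 + m)).1.2.1
      linarith
    rw [hfix, dist_comm] at lim
    have := (hf (j + 1)).1.2.1
    linarith

end Pool.Agent.P.MP_af0fcb_gt.SW
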