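import Pool.Agent.P.MP_af0fcb_gt.SW.Defs

/-! Existence of towers. -/

namespace Pool.Agent.P.MP_af0fcb_gt.SW

open Set Filter Topology Metric

namespace TOWx

theorem ev_ball {X : Type} [SeminormedAddCommGroup X] {p : X → Prop} (h : ∀ᶠ v in 𝓝 (0 : X), p v) :
    ∀ᶠ ρ in 𝓝[>] (0 : ℝ), ∀ v, ‖v‖ ≤ ρ → p v := by
  obtain ⟨δ, h0, h1⟩ := Metric.eventually_nhds_iff.1 h
  filter_upwards [nhdsWithin_le_nhds (Iio_mem_nhds h0)] with ρ hρ v hv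
  exact h1 (by rw [dist_zero_right]; exact hv.trans_lt hρ)

theorem ev_ball₂ {X : Type} [SeminormedAddCommGroup X] {p : X → X → Prop}
    (h : ∀ᶠ x in 𝓝 (0 : X × X), p x.1 x.2) :
    ∀ᶠ ρ in 𝓝[>] (0 : ℝ), ∀ v v', ‖v‖ ≤ ρ → ‖v'‖ ≤ ρ → p v v' :=
  (ev_ball h).mono fun _ hρ v v' h1 h2 => hρ (v, v') (max_le h1 h2)

variable {H X W : Type} [Group H] [NormedAddCommGroup X] [MulAction H W]
  {α : Act H X} {κ : W → X ≃ₜ X} {S0 : Finset H} {S : ℕ → Finset H} {r : W → ℕ} {ε : ℝ}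

/-- The conditions on the radius. -/
def Rad (α : Act H X) (κ : W → X ≃ₜ X) (S : ℕ → Finset H) (r : W → ℕ) (j : ℕ) (ρ : ℝ) : Prop :=
  0 < ρ ∧ (∀ w w' v v', r w < j + 2 → r w' < j + 2 → ‖v‖ ≤ ρ → ‖v'‖ ≤ ρ →
    κ w v = κ w' v' → w = w') ∧
  ∀ s w v, s ∈ S j → r w < j + 2 → ‖v‖ ≤ ρ → α s (κ w v) = κ (s • w) v

theorem small (hC : Charts α κ) (hR : Rank S0 S r) (hε : 0 < ε) (j : ℕ) (F : X ≃ₜ X) :
    ∀ᶠ ρ in 𝓝[>] (0 : ℝ), Rad α κ S r j ρ ∧ ∀ w v v', r w < j + 2 → ‖v‖ ≤ ρ → ‖v'‖ ≤ ρ →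
      dist (F (κ w v)) (F (κ w v')) ≤ ε / 2 ^ j := by
  have hf := hR.fin (j + 2)
  have h1 : ∀ᶠ ρ in 𝓝[>] (0 : ℝ), ∀ w ∈ {w | r w < j + 2}, ∀ w' ∈ {w | r w < j + 2},
      ∀ v v', ‖v‖ ≤ ρ → ‖v'‖ ≤ ρ → κ w v = κ w' v' → w = w' := by
    refine (eventually_all_finite hf).2 fun w _ => (eventually_all_finite hf).2 fun w' _ => ?_
    refine ev_ball₂ (p := fun v v' => κ w v = κ w' v' → w = w') ?_
    by_cases e : w = w'
    · exact Eventually.of_forall fun _ _ => e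
    · have h2 : IsOpen {x : X × X | κ w x.1 ≠ κ w' x.2} := isOpen_ne_fun (by fun_prop) (by fun_prop)
      filter_upwards [h2.mem_nhds (x := 0) fun h => e (hC.inj h)] with x hx h using absurd h hx
  have h2 : ∀ᶠ ρ in 𝓝[>] (0 : ℝ), ∀ s ∈ S j, ∀ w ∈ {w | r w < j + 2},
      ∀ v, ‖v‖ ≤ ρ → α s (κ w v) = κ (s • w) v :=
    (eventually_all_finset _).2 fun s _ => (eventually_all_finite hf).2 fun w _ =>
      ev_ball (hC.eqv s w)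
  have h3 : ∀ᶠ ρ in 𝓝[>] (0 : ℝ), ∀ w ∈ {w | r w < j + 2}, ∀ v v', ‖v‖ ≤ ρ → ‖v'‖ ≤ ρ →
      dist (F (κ w v)) (F (κ w v')) ≤ ε / 2 ^ j := by
    refine (eventually_all_finite hf).2 fun w _ => ev_ball₂
      (p := fun v v' => dist (F (κ w v)) (F (κ w v')) ≤ ε / 2 ^ j) ?_
    have h4 : IsOpen {x : X × X | dist (F (κ w x.1)) (F (κ w x.2)) < ε / 2 ^ j} :=
      isOpen_lt (by fun_prop) continuous_const
    filter_upwards [h4.mem_nhds (x := 0) (by simp; positivity)] with x hx using le_of_lt hx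
  filter_upwards [h1, h2, h3, self_mem_nhdsWithin] with ρ a1 a2 a3 a4
  exact ⟨⟨a4, fun w w' v v' b1 b2 => a1 w b1 w' b2 v v', fun s w v b1 b2 => a2 s b1 w b2 v⟩,
    fun w v v' b => a3 w b v v'⟩

theorem psi (κ : W → X ≃ₜ X) (E : X ≃ₜ X) (ρ : ℝ) (h1 : ∀ v, ρ ≤ ‖v‖ → E v = v)
    (h2 : ∀ v, ‖v‖ ≤ ρ → ‖E v‖ ≤ ρ) {Z : Set W} (hZ : Z.Finite)
    (hd : ∀ w ∈ Z, ∀ w' ∈ Z, ∀ v v', ‖v‖ ≤ ρ → ‖v'‖ ≤ ρ → κ w v = κ w' v' → w = w') :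
    ∃ Ψ : X ≃ₜ X, (∀ w ∈ Z, ∀ v, ‖v‖ ≤ ρ → Ψ (κ w v) = κ w (E v)) ∧
      ∀ y, (∀ w ∈ Z, ∀ v, ‖v‖ ≤ ρ → κ w v ≠ y) → Ψ y = y := by
  induction Z, hZ using Set.Finite.induction_on with
  | empty => exact ⟨1, fun _ h => h.elim, fun _ _ => rfl⟩
  | @insert w Z hw _ ih =>
    obtain ⟨Ψ, a1, a2⟩ := ih fun u hu u' hu' => hd u (Or.inr hu) u' (Or.inr hu')
    have b1 : ∀ y, (∀ v, ‖v‖ ≤ ρ → κ w v ≠ y) → κ w (E ((κ w).symm y)) = y := fun y hy => by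
      rw [h1 _ (not_lt.1 fun h => hy _ h.le ((κ w).apply_symm_apply y)), (κ w).apply_symm_apply]
    have b2 : ∀ u ∈ Z, ∀ v v', ‖v‖ ≤ ρ → ‖v'‖ ≤ ρ → κ w v ≠ κ u v' := fun u hu v v' c1 c2 e =>
      hw (hd w (Or.inl rfl) u (Or.inr hu) v v' c1 c2 e ▸ hu)
    refine ⟨(((κ w).symm.trans E).trans (κ w)).trans Ψ, fun u hu v hv => ?_, fun y hy => ?_⟩
    · show Ψ (κ w (E ((κ w).symm (κ u v)))) = _
      rcases hu with rfl | hu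
      · rw [Homeomorph.symm_apply_apply]
        exact a2 _ fun u' hu' v' hv' => (b2 u' hu' _ _ (h2 v hv) hv').symm
      · rw [b1 _ fun v' hv' => b2 u hu v' v hv' hv, a1 u hu v hv]
    · show Ψ (κ w (E ((κ w).symm y))) = _
      rw [b1 y (hy w (Or.inl rfl)), a2 y fun u hu => hy u (Or.inr hu)]

theorem aa_pos (j : ℕ) : 0 < aa j := by unfold aa; positivity

theorem aa_lt (j : ℕ) : aa (j + 1) < aa j := by
  unfold aa
  push_cast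
  gcongr
  linarith

end TOWx

open TOWx in
theorem p_TOW (hRAD : S_RAD) : S_TOW := by
  intro H X W _ _ _ _ α κ S0 S r ε hC hR hε
  obtain ⟨ρ₀, h0, h0'⟩ := (small hC hR hε 0 1).exists
  obtain ⟨f, f0, hf⟩ := exists_seq
    (fun j (s : (X ≃ₜ X) × ℝ) => Rad α κ S r j s.2 ∧ ∀ w v v', r w ≤ j → j ≤ r w + 1 →
      ‖v‖ ≤ s.2 → ‖v'‖ ≤ s.2 → dist (s.1 (κ w v)) (s.1 (κ w v')) ≤ ε / 2 ^ j)
    (fun j s s' => s'.2 ≤ s.2 ∧ ∃ E : X ≃ₜ X, (∀ v, ‖v‖ ≤ s.2 → ‖E v‖ ≤ s.2) ∧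
      (∀ v, ‖v‖ ≤ s'.2 → E v = ((aa (j + 1) / s'.2) / (aa j / s.2)) • v) ∧
      (∀ w v, r w < j → ‖v‖ ≤ s.2 → s'.1 (κ w v) = s.1 (κ w (E v))) ∧
      ∀ y, (∀ w v, r w < j → ‖v‖ ≤ s.2 → κ w v ≠ y) → s'.1 y = s.1 y)
    (1, ρ₀) ⟨h0, fun w v v' a _ => h0' w v v' (by omega)⟩ (by
      rintro j ⟨F, ρ⟩ ⟨⟨a1, a2, -⟩, -⟩
      dsimp only at a1 a2 ⊢
      obtain ⟨ρ', ⟨b1, b2⟩, b3⟩ := ((small hC hR hε (j + 1) F).and
        (nhdsWithin_le_nhds (Iio_mem_nhds a1))).exists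
      have b4 : ρ' < ρ := b3
      have p1 := aa_pos j
      have p2 := aa_pos (j + 1)
      have p3 := b1.1
      obtain ⟨E, e1, e2, e3⟩ := hRAD X ρ ρ' ((aa (j + 1) / ρ') / (aa j / ρ)) p3 b4 (by positivity)
        (by
          rw [show aa (j + 1) / ρ' / (aa j / ρ) * ρ' = aa (j + 1) / aa j * ρ by field_simp]
          exact mul_lt_of_lt_one_left a1 ((div_lt_one p1).2 (aa_lt j)))
      obtain ⟨Ψ, c1, c2⟩ := psi κ E ρ e1 e3 (hR.fin j) fun w hw w' hw' v v' =>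
        a2 w w' v v' (by have : r w < j := hw; omega) (by have : r w' < j := hw'; omega)
      refine ⟨(Ψ.trans F, ρ'), ⟨b1, fun w v v' d1 d2 d3 d4 => ?_⟩, b4.le, E, e3, e2,
        fun w v d1 d2 => congrArg F (c1 w d1 v d2),
        fun y hy => congrArg F (c2 y fun w hw v => hy w v hw)⟩
      have key : ∀ u, ‖u‖ ≤ ρ' → Ψ (κ w u) = κ w u := fun u hu => c2 _ fun w' hw' u' hu' e => by
        have h1 : r w' < j := hw'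
        have h2 := a2 w' w u' u (by omega) (by omega) hu' (hu.trans b4.le) e
        subst h2
        omega
      show dist (F (Ψ (κ w v))) (F (Ψ (κ w v'))) ≤ _
      rw [key v d3, key v' d4]
      exact b2 w v v' (by omega) d3 d4)
  choose E e1 e2 e3 e4 using fun j => (hf j).2.2
  exact ⟨fun j => (f j).1, fun j => (f j).2, E, fun j => (hf j).1.1.1, fun j => (hf j).2.1,
    by rw [f0], fun j => (hf j).1.1.2.1, fun j => (hf j).1.1.2.2, fun j => (hf j).1.2, e1, e2, e3,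
    e4⟩

end Pool.Agent.P.MP_af0fcb_gt.SW
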