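import Pool.Agent.P.MP_af0fcb_gt.SW.Glue
import Pool.Agent.P.MP_af0fcb_gt.SW.ABS
import Pool.Agent.P.MP_af0fcb_gt.SW.TOW
import Pool.Agent.P.MP_af0fcb_gt.SW.TB
import Pool.Agent.P.MP_af0fcb_gt.SW.RIG
import Pool.Agent.P.MP_af0fcb_gt.SW.SKEW
import Pool.Agent.P.MP_af0fcb_gt.SW.INS
import Pool.Agent.P.MP_af0fcb_gt.SW.INV
import Pool.Agent.P.MP_af0fcb_gt.SW.CH
import Pool.Agent.P.MP_af0fcb_gt.SW.BL
import Pool.Agent.P.MP_af0fcb_gt.SW.TF
import Pool.Agent.P.MP_af0fcb_gt.SW.REAL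
import Pool.Agent.P.MP_af0fcb_gt.SW.RK
import Pool.Agent.P.MP_af0fcb_gt.SW.TA
import Pool.Agent.P.MP_af0fcb_gt.SW.RAD
import Pool.Agent.P.MP_af0fcb_gt.SW.GL

namespace Pool.Agent.P.MP_af0fcb_gt.SW

theorem t_BL : S_BL := p_BL p_LIM p_RK (p_TOW p_RAD) p_TA p_TB

theorem realize (H : Type) [Group H] [Countable H] (X : Type) [NormedAddCommGroup X]
    [NormedSpace ℝ X] [FiniteDimensional ℝ X] (n : ℕ) (hmn : 2 * Module.finrank ℝ X + 1 ≤ n)
    (α : Act H X) (hα : Function.Injective α) : InClass (EuclideanSpace ℝ (Fin n)) H :=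
  glue p_CH t_BL (p_TF p_LIM (p_INS p_GL p_INV p_CH t_BL))
    (p_REAL (p_SKEW p_GL p_SLOW) (p_ABS p_GL p_RIG)) H X n hmn α hα

theorem realize' (H : Type) [Group H] (m n : ℕ) (hmn : 2 * m + 1 ≤ n) (hc : Countable H)
    (h : ∃ φ : H →* (EuclideanSpace ℝ (Fin m) ≃ₜ EuclideanSpace ℝ (Fin m)),
      Function.Injective φ) : InClass (EuclideanSpace ℝ (Fin n)) H :=
  h.elim fun α hα => realize H _ n (by rwa [finrank_euclideanSpace_fin]) α hα

theorem realize_order (H : Type) [Group H] (n : ℕ) (hn : 3 ≤ n) (hc : Countable H)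
    (h : ∃ _ : LinearOrder H, ∀ a b c : H, a < b → c * a < c * b) :
    InClass (EuclideanSpace ℝ (Fin n)) H := by
  obtain ⟨_, hl⟩ := h
  obtain ⟨α, hα⟩ := act_of_order H hl
  exact realize H ℝ n (by rwa [Module.finrank_self]) α hα

end Pool.Agent.P.MP_af0fcb_gt.SW
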