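import Pool.Agent.P.MP_af0fcb_gt.SW.Defs

namespace Pool.Agent.P.MP_af0fcb_gt.SW

open Set Filter Topology Metric

namespace REALx

theorem const {X Y : Type} [TopologicalSpace X] [PreconnectedSpace X] [TopologicalSpace Y]
    [T1Space Y] {ψ : X → Y} (hψ : Continuous ψ) {U : Set X} (hU : Dense U) {O : Set Y}
    (hO : IsOpen O) {p : Y} (hp : p ∈ O) (h : ∀ x ∈ U, ψ x ∈ O → ψ x = p) {x0 : X}
    (h0 : ψ x0 = p) (x : X) : ψ x = p := by
  have c : IsClosed (ψ ⁻¹' {p}) := isClosed_singleton.preimage hψ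
  have e : ψ ⁻¹' {p} = ψ ⁻¹' O := by
    refine Subset.antisymm (preimage_mono (singleton_subset_iff.2 hp)) ?_
    refine (hU.open_subset_closure_inter (hO.preimage hψ)).trans (closure_minimal ?_ c)
    exact fun y hy => h y hy.2 hy.1
  have u : ψ ⁻¹' {p} = univ := IsClopen.eq_univ ⟨c, e ▸ hO.preimage hψ⟩ ⟨x0, h0⟩
  exact (u ▸ mem_univ x : x ∈ ψ ⁻¹' {p})

end REALx

open REALx in
theorem p_REAL (h1 : S_SKEW) (h2 : S_ABS) : S_REAL := by
  intro H X W P _ hH _ _ _ _ _ _ _ _ β Θ hB hfree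
  obtain ⟨γ, G, g1, g2, g3, g4, g5, g6⟩ := h1 H X W P β Θ hB
  have z1 : ‖(0 : X)‖ < 1 := by simp
  have pre : ∀ w, IsPreconnected {y : X × X × ℝ × P | 0 < G w y} := fun w => by
    have e : {y : X × X × ℝ × P | 0 < G w y} = (Θ w '' ball 0 1) ×ˢ univ := by
      ext y
      simp only [mem_ofPred_eq, g4, mem_prod, mem_image, mem_ball_zero_iff, mem_univ, and_true]
    rw [e]
    exact (((convex_ball (0 : X) 1).isPreconnected).image _
      (Θ w).continuous.continuousOn).prod isPreconnected_univ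
  obtain ⟨f, f1, f2, f3⟩ := h2 H (X × X × ℝ × P) W γ G hfree g2 g3 (fun w w' y a b => by
    obtain ⟨v, hv, e⟩ := (g4 w y).1 a
    obtain ⟨v', hv', e'⟩ := (g4 w' y).1 b
    exact hB.disj w w' v v' hv.le hv'.le (e.trans e'.symm)) pre g5 g6
  obtain ⟨_, w0, -, -, -⟩ := hB.dense.nonempty
  have cancel : ∀ g h : H, Θ (g • w0) 0 = Θ (h • w0) 0 → g = h := fun g h e => by
    have a := hB.disj _ _ _ _ z1.le z1.le e
    have b := hfree (h⁻¹ * g) w0 (by rw [mul_smul, a, inv_smul_smul])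
    exact (inv_mul_eq_one.1 b).symm
  have inj : Function.Injective γ := fun g h e => cancel g h (by
    have a := (g1 g (Θ w0 0, Θ w0 0, 0, 0)).1
    have b := (g1 h (Θ w0 0, Θ w0 0, 0, 0)).1
    rw [e, b] at a
    rw [← hB.eqv g w0 0 z1.le, ← hB.eqv h w0 0 z1.le]
    exact a.symm)
  have rng : γ.range = symmGroup f := by
    refine le_antisymm ?_ fun A hA => ?_
    · rintro _ ⟨h, rfl⟩
      exact f2 h
    choose h hh using f3 A hA
    have val : ∀ w v, ‖v‖ < 1 → (A (Θ w v, Θ w0 0, 0, 0)).2.1 = Θ (h w • w0) 0 := fun w v hv => by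
      rw [hh w _ ((g4 w _).2 ⟨v, hv, rfl⟩), (g1 _ _).2, hB.eqv _ w0 0 z1.le]
    have cψ : Continuous fun x : X => (A (x, Θ w0 0, 0, 0)).2.1 := by fun_prop
    have all := const cψ hB.dense ((Θ (h w0 • w0)).isOpenMap _ (isOpen_ball (x := 0) (ε := 1)))
      (p := Θ (h w0 • w0) 0) ⟨0, mem_ball_self one_pos, rfl⟩ (by
        rintro _ ⟨w, v, hv, rfl⟩ ⟨v', hv', e⟩
        rw [val w v hv] at e ⊢
        rw [hB.disj _ _ _ _ (mem_ball_zero_iff.1 hv').le z1.le e]) (val w0 0 z1)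
    have hw : ∀ w, h w = h w0 := fun w => cancel _ _ ((val w 0 z1).symm.trans (all _))
    refine ⟨h w0, Homeomorph.ext (congrFun ?_)⟩
    refine Continuous.ext_on (hB.dense.prod dense_univ) (γ (h w0)).continuous A.continuous ?_
    rintro y ⟨⟨w, v, hv, e⟩, -⟩
    rw [hh w y ((g4 w y).2 ⟨v, hv, e⟩), hw w]
  exact ⟨hH, f, f1, ⟨(MonoidHom.ofInjective inj).trans (MulEquiv.subgroupCongr rng)⟩⟩

end Pool.Agent.P.MP_af0fcb_gt.SW
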